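import Mathlib
import Pool.Prelude.Def_F_6a22bfac

/-!
# RM9/Det: the 2-full part
-/

set_option autoImplicit false

namespace Pool.Agent.RM9

open N8b628fb0

theorem B_ab (m : ℕ) : ∃ a b : ℕ, 1 ≤ a ∧ 1 ≤ b ∧ B 2 m = a ^ 2 * b ^ 3 := by
  unfold B
  refine Finset.prod_induction _ (fun x : ℕ => ∃ a b : ℕ, 1 ≤ a ∧ 1 ≤ b ∧ x = a ^ 2 * b ^ 3) ?_ ?_ ?_
  · rintro x y ⟨a, b, ha, hb, rfl⟩ ⟨c, d, hc, hd, rfl⟩
    exact ⟨a * c, b * d, Nat.mul_pos ha hc, Nat.mul_pos hb hd, by ring⟩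
  · exact ⟨1, 1, le_rfl, le_rfl, by norm_num⟩
  · intro p hp
    rw [Finset.mem_filter, Nat.support_factorization] at hp
    have hp0 : 1 ≤ p := (Nat.prime_of_mem_primeFactors hp.1).one_lt.le
    rcases Nat.even_or_odd' (m.factorization p) with ⟨c, h | h⟩
    · exact ⟨p ^ c, 1, Nat.one_le_pow _ _ hp0, le_rfl, by rw [h]; ring⟩
    · have hc : 1 ≤ c := by
        have := hp.2
        omega
      obtain ⟨d, rfl⟩ : ∃ d, c = d + 1 := ⟨c - 1, by omega⟩
      exact ⟨p ^ d, p, Nat.one_le_pow _ _ hp0, hp0, by rw [h]; ring⟩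

theorem B_dvd {m : ℕ} (hm : m ≠ 0) : B 2 m ∣ m := by
  unfold B
  conv_rhs => rw [← Nat.prod_factorization_pow_eq_self hm]
  rw [Finsupp.prod]
  exact Finset.prod_dvd_prod_of_subset _ _ _ (Finset.filter_subset _ _)

theorem B_sq (t : ℕ) (ht : 1 ≤ t) : B 2 (t ^ 2) = t ^ 2 := by
  unfold B
  have h0 : t ^ 2 ≠ 0 := by positivity
  conv_rhs => rw [← Nat.prod_factorization_pow_eq_self h0]
  rw [Finsupp.prod]
  congr 1
  rw [Finset.filter_eq_self]
  intro p hp
  rw [Finsupp.mem_support_iff, Nat.factorization_pow] at hp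
  rw [Nat.factorization_pow]
  simp only [Finsupp.coe_smul, Pi.smul_apply, smul_eq_mul] at hp ⊢
  have : t.factorization p ≠ 0 := by
    intro h
    apply hp
    rw [h, mul_zero]
  omega

/-- telescoping bound for `1 / (n log² n)` -/
theorem summ : Summable fun n : ℕ => 1 / ((n : ℝ) * Real.log n ^ 2) := by
  rw [← summable_nat_add_iff 3]
  have hpos : ∀ n : ℕ, 0 < Real.log ((n + 2 : ℕ) : ℝ) := by
    intro n
    apply Real.log_pos
    push_cast
    linarith [Nat.cast_nonneg (α := ℝ) n]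
  refine summable_of_sum_range_le (c := 1 / Real.log ((0 + 2 : ℕ) : ℝ)) (fun n => by positivity) ?_
  intro n
  have key : ∀ N : ℕ, ∑ i ∈ Finset.range N, 1 / (((i + 3 : ℕ) : ℝ) * Real.log ((i + 3 : ℕ) : ℝ) ^ 2) ≤
      1 / Real.log ((0 + 2 : ℕ) : ℝ) - 1 / Real.log ((N + 2 : ℕ) : ℝ) := by
    intro N
    induction N with
    | zero => simp
    | succ N ih =>
      rw [Finset.sum_range_succ]
      have h1 := hpos N
      have h2 := hpos (N + 1)
      have h3 : Real.log ((N + 2 : ℕ) : ℝ) ≤ Real.log ((N + 1 + 2 : ℕ) : ℝ) :=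
        Real.log_le_log (by positivity) (by push_cast; linarith)
      have h4 : 1 / ((N + 3 : ℕ) : ℝ) ≤ Real.log ((N + 1 + 2 : ℕ) : ℝ) - Real.log ((N + 2 : ℕ) : ℝ) := by
        rw [← Real.log_div (by positivity) (by positivity)]
        have h5 := Real.one_sub_inv_le_log_of_pos
          (show 0 < ((N + 1 + 2 : ℕ) : ℝ) / ((N + 2 : ℕ) : ℝ) by positivity)
        refine le_trans (le_of_eq ?_) h5
        push_cast
        field_simp
        ring
      have h6 : 1 / (((N + 3 : ℕ) : ℝ) * Real.log ((N + 3 : ℕ) : ℝ) ^ 2) ≤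
          1 / Real.log ((N + 2 : ℕ) : ℝ) - 1 / Real.log ((N + 1 + 2 : ℕ) : ℝ) := by
        have e3 : (N + 1 + 2 : ℕ) = N + 3 := by omega
        rw [e3] at h2 h3 h4 ⊢
        rw [div_sub_div _ _ h1.ne' h2.ne', div_le_div_iff₀ (by positivity) (by positivity)]
        have h7 : (0 : ℝ) < ((N + 3 : ℕ) : ℝ) := by positivity
        rw [div_le_iff₀ h7] at h4
        have h8 : Real.log ((N + 2 : ℕ) : ℝ) * Real.log ((N + 3 : ℕ) : ℝ) ≤
            Real.log ((N + 3 : ℕ) : ℝ) ^ 2 := by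
          rw [sq]
          exact mul_le_mul_of_nonneg_right h3 h2.le
        have h9 : 0 < Real.log ((N + 3 : ℕ) : ℝ) ^ 2 := by positivity
        nlinarith
      have e3 : (N + 1 + 2 : ℕ) = N + 3 := by omega
      linarith
  have h := key n
  have := hpos n
  have h2 : 0 < 1 / Real.log ((n + 2 : ℕ) : ℝ) := by positivity
  linarith

end Pool.Agent.RM9
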