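import Pool.Agent.RM9.IndS21

/-!
# RM9/Ind: independence of disjoint windows

The coordinates are independent under the product measure, the windows `Ico (k j) (k j + k)` are disjoint.
-/

set_option autoImplicit false

namespace Pool.Agent.RM9

open N8b628fb0 MeasureTheory ProbabilityTheory Filter

theorem indep_windows (k j0 : ℕ) (hk : 1 ≤ k) (y : ℕ → ℝ) :
    iIndepSet (fun j : ℕ => {ω : ∀ m, Om m | y j ≤ (PkX k (k * (j + j0)) ω : ℝ)}) P :=
  indep_windows_S21 k j0 hk y

end Pool.Agent.RM9
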