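import Pool.Agent.RM9.Prob

/-!
# RM9/IndS21: independence of disjoint windows

The coordinates are independent under the product measure, an event that depends only on the coordinates in a finite
set is a preimage under the restriction to this set, and disjoint finite sets of coordinates give independent events;
then induction on the number of windows.
-/

set_option autoImplicit false

namespace Pool.Agent.RM9

open N8b628fb0 MeasureTheory ProbabilityTheory Filter

theorem dep_pre (S : Finset ℕ) (E : Set (∀ m, Om m))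
    (hE : ∀ w v : ∀ m, Om m, (∀ m ∈ S, w m = v m) → w ∈ E → v ∈ E) :
    E = (fun (w : ∀ m, Om m) (i : S) => w i) ⁻¹' ((fun (w : ∀ m, Om m) (i : S) => w i) '' E) := by
  ext v
  rw [Set.mem_preimage, Set.mem_image]
  constructor
  · intro h
    exact ⟨v, h, rfl⟩
  · rintro ⟨w, hw, hwv⟩
    refine hE w v ?_ hw
    intro m hm
    exact congrFun hwv ⟨m, hm⟩

theorem coord_meas (S : Finset ℕ) :
    Measurable (fun (w : ∀ m, Om m) (i : S) => w i) :=
  measurable_pi_lambda _ fun i => measurable_pi_apply (i : ℕ)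

theorem dep_meas (S : Finset ℕ) (E : Set (∀ m, Om m))
    (hE : ∀ w v : ∀ m, Om m, (∀ m ∈ S, w m = v m) → w ∈ E → v ∈ E) :
    MeasurableSet E := by
  rw [dep_pre S E hE]
  exact coord_meas S MeasurableSet.of_discrete

theorem coord_indep : iIndepFun (fun (m : ℕ) (w : ∀ m, Om m) => w m) P := by
  unfold P
  exact iIndepFun_infinitePi (P := law) (X := fun _ x => x) (fun _ => measurable_id)

theorem dep_indep (S T : Finset ℕ) (hST : Disjoint S T) (E F : Set (∀ m, Om m))
    (hE : ∀ w v : ∀ m, Om m, (∀ m ∈ S, w m = v m) → w ∈ E → v ∈ E)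
    (hF : ∀ w v : ∀ m, Om m, (∀ m ∈ T, w m = v m) → w ∈ F → v ∈ F) :
    P (E ∩ F) = P E * P F := by
  have h1 := iIndepFun.indepFun_finset S T hST coord_indep (fun m => measurable_pi_apply m)
  have h2 := h1.measure_inter_preimage_eq_mul
    ((fun (w : ∀ m, Om m) (i : S) => w i) '' E) ((fun (w : ∀ m, Om m) (i : T) => w i) '' F)
    MeasurableSet.of_discrete MeasurableSet.of_discrete
  have h3 : (fun (w : ∀ m, Om m) (i : S) => w i) ⁻¹' ((fun (w : ∀ m, Om m) (i : S) => w i) '' E)
      = E := (dep_pre S E hE).symm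
  have h4 : (fun (w : ∀ m, Om m) (i : T) => w i) ⁻¹' ((fun (w : ∀ m, Om m) (i : T) => w i) '' F)
      = F := (dep_pre T F hF).symm
  rw [h3, h4] at h2
  exact h2

theorem indep_of_dep (W : ℕ → Finset ℕ) (hW : ∀ i j, i ≠ j → Disjoint (W i) (W j))
    (E : ℕ → Set (∀ m, Om m))
    (hE : ∀ j, ∀ w v : ∀ m, Om m, (∀ m ∈ W j, w m = v m) → w ∈ E j → v ∈ E j) :
    iIndepSet E P := by
  classical
  rw [iIndepSet_iff_meas_biInter (fun j => dep_meas (W j) (E j) (hE j))]
  intro s
  induction s using Finset.induction_on with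
  | empty => simp
  | insert a s ha ih =>
    rw [Finset.prod_insert ha, ← ih, Finset.set_biInter_insert]
    refine dep_indep (W a) (s.biUnion W) ?_ (E a) (⋂ x ∈ s, E x) (hE a) ?_
    · rw [Finset.disjoint_biUnion_right]
      intro i hi
      exact hW a i (fun h => ha (h ▸ hi))
    · intro w v hwv hw
      simp only [Set.mem_iInter] at hw ⊢
      intro x hx
      exact hE x w v (fun m hm => hwv m (Finset.mem_biUnion.mpr ⟨x, hx, hm⟩)) (hw x hx)

theorem indep_windows_S21 (k j0 : ℕ) (hk : 1 ≤ k) (y : ℕ → ℝ) :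
    iIndepSet (fun j : ℕ => {ω : ∀ m, Om m | y j ≤ (PkX k (k * (j + j0)) ω : ℝ)}) P := by
  refine indep_of_dep (fun j => Finset.Ico (k * (j + j0)) (k * (j + j0) + k)) ?_ _ ?_
  · intro i j hij
    rw [Finset.disjoint_left]
    intro x hx hx'
    simp only [Finset.mem_Ico] at hx hx'
    rcases Nat.lt_or_gt_of_ne hij with h | h
    · have h1 : k * (i + j0) + k ≤ k * (j + j0) := by
        have : k * (i + j0 + 1) ≤ k * (j + j0) := Nat.mul_le_mul_left k (by omega)
        rwa [Nat.mul_add, Nat.mul_one] at this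
      omega
    · have h1 : k * (j + j0) + k ≤ k * (i + j0) := by
        have : k * (j + j0 + 1) ≤ k * (i + j0) := Nat.mul_le_mul_left k (by omega)
        rwa [Nat.mul_add, Nat.mul_one] at this
      omega
  · intro j w v hwv hw
    have h1 : PkX k (k * (j + j0)) w = PkX k (k * (j + j0)) v := by
      unfold PkX
      refine Finset.prod_congr rfl fun m hm => ?_
      rw [hwv m hm]
    have hw' : y j ≤ (PkX k (k * (j + j0)) w : ℝ) := hw
    rw [h1] at hw'
    exact hw'

end Pool.Agent.RM9
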