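import Pool.Agent.RM9.Prob

set_option autoImplicit false

namespace Pool.Agent.RM9

open N8b628fb0 MeasureTheory ProbabilityTheory Filter

theorem sq_unique26 {s t u v : ℕ} (hs : 1 ≤ s) (hu : Squarefree u) (hv : Squarefree v)
    (h : s ^ 2 * u = t ^ 2 * v) : s = t := by
  obtain ⟨s', t', hc, h1, h2⟩ := Nat.exists_coprime s t
  have hg : 0 < Nat.gcd s t := Nat.gcd_pos_of_pos_left _ hs
  generalize Nat.gcd s t = g at h1 h2 hg
  subst h1 h2
  have h3 : s' ^ 2 * u = t' ^ 2 * v := by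
    have h4 : g ^ 2 * (s' ^ 2 * u) = g ^ 2 * (t' ^ 2 * v) := by
      calc g ^ 2 * (s' ^ 2 * u) = (s' * g) ^ 2 * u := by ring
        _ = (t' * g) ^ 2 * v := h
        _ = g ^ 2 * (t' ^ 2 * v) := by ring
    exact Nat.eq_of_mul_eq_mul_left (by positivity) h4
  have h4 : s' * s' ∣ v := by
    rw [← sq]
    exact (Nat.Coprime.pow 2 2 hc).dvd_of_dvd_mul_left ⟨u, h3.symm⟩
  have h5 : t' * t' ∣ u := by
    rw [← sq]
    exact (Nat.Coprime.pow 2 2 hc.symm).dvd_of_dvd_mul_left ⟨v, h3⟩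
  have h6 : s' = 1 := Nat.isUnit_iff.mp (hv s' h4)
  have h7 : t' = 1 := Nat.isUnit_iff.mp (hu t' h5)
  rw [h6, h7]

theorem sqf_count26 (z : ℕ) :
    z ≤ 12 * ((Finset.Icc 1 z).filter (fun u => Squarefree u)).card := by
  classical
  have h1 := Finset.card_filter_add_card_filter_not (s := Finset.Icc 1 z) (fun u => Squarefree u)
  rw [Nat.card_Icc, Nat.add_sub_cancel] at h1
  have h2 : ((Finset.Icc 1 z).filter (fun u => ¬ Squarefree u)).card ≤
      ∑ d ∈ Finset.Icc 2 z, z / (d * d) := by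
    have hsub : (Finset.Icc 1 z).filter (fun u => ¬ Squarefree u) ⊆
        (Finset.Icc 2 z).biUnion (fun d => (Finset.Icc 1 z).filter (fun u => d * d ∣ u)) := by
      intro u hu
      rw [Finset.mem_filter, Finset.mem_Icc] at hu
      obtain ⟨⟨hu1, hu2⟩, hu3⟩ := hu
      unfold Squarefree at hu3
      push Not at hu3
      obtain ⟨d, hd, hd1⟩ := hu3
      rw [Nat.isUnit_iff] at hd1
      have hd0 : d ≠ 0 := by
        rintro rfl
        rw [mul_zero, zero_dvd_iff] at hd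
        omega
      have hd2 : d * d ≤ u := Nat.le_of_dvd (by omega) hd
      have hd3 : d ≤ d * d := Nat.le_mul_self d
      rw [Finset.mem_biUnion]
      exact ⟨d, by rw [Finset.mem_Icc]; omega,
        by rw [Finset.mem_filter, Finset.mem_Icc]; exact ⟨⟨hu1, hu2⟩, hd⟩⟩
    refine (Finset.card_le_card hsub).trans (Finset.card_biUnion_le.trans ?_)
    apply Finset.sum_le_sum
    intro d _
    have h3 := Nat.Ioc_filter_dvd_card_eq_div z (d * d)
    rw [← h3]
    exact le_of_eq rfl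
  have h3 : (∑ d ∈ Finset.Icc 2 z, ((z / (d * d) : ℕ) : ℝ)) ≤ z * (11 / 12) := by
    have h4 : (∑ d ∈ Finset.Icc 2 z, ((z / (d * d) : ℕ) : ℝ)) ≤
        ∑ d ∈ Finset.Icc 2 z, z * (((d : ℝ) ^ 2)⁻¹) := by
      apply Finset.sum_le_sum
      intro d _
      have h5 : ((z / (d * d) : ℕ) : ℝ) ≤ (z : ℝ) / ((d * d : ℕ) : ℝ) := Nat.cast_div_le
      refine h5.trans (le_of_eq ?_)
      push_cast
      rw [div_eq_mul_inv, sq]
    refine h4.trans ?_
    rw [← Finset.mul_sum]
    apply mul_le_mul_of_nonneg_left _ (Nat.cast_nonneg z)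
    have h6 : Finset.Icc 2 z ⊆ {2} ∪ Finset.Ioo 2 (z + 1) := by
      intro d hd
      rw [Finset.mem_Icc] at hd
      rw [Finset.mem_union, Finset.mem_singleton, Finset.mem_Ioo]
      omega
    have h7 : ∑ d ∈ Finset.Icc 2 z, (((d : ℝ) ^ 2)⁻¹) ≤
        ∑ d ∈ {2} ∪ Finset.Ioo 2 (z + 1), (((d : ℝ) ^ 2)⁻¹) :=
      Finset.sum_le_sum_of_subset_of_nonneg h6 fun d _ _ => by positivity
    refine h7.trans ?_
    rw [Finset.sum_union (by
      rw [Finset.disjoint_left]
      intro d h8 h9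
      rw [Finset.mem_singleton] at h8
      rw [Finset.mem_Ioo] at h9
      omega), Finset.sum_singleton]
    have h8 := sum_Ioo_inv_sq_le (α := ℝ) 2 (z + 1)
    push_cast at h8 ⊢
    norm_num at h8 ⊢
    linarith
  have h4 : (((Finset.Icc 1 z).filter (fun u => ¬ Squarefree u)).card : ℝ) ≤ z * (11 / 12) := by
    refine le_trans ?_ h3
    exact_mod_cast h2
  have h5 : (((Finset.Icc 1 z).filter (fun u => Squarefree u)).card : ℝ) +
      ((Finset.Icc 1 z).filter (fun u => ¬ Squarefree u)).card = z := by exact_mod_cast h1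
  have h6 : (z : ℝ) ≤ 12 * ((Finset.Icc 1 z).filter (fun u => Squarefree u)).card := by linarith
  exact_mod_cast h6

theorem law_sq26 (m s : ℕ) (hs : 1 ≤ s) (hm : s ^ 2 ≤ m) :
    ENNReal.ofReal (1 / (24 * (s : ℝ) ^ 2)) ≤
      law m {x | ∃ u, Squarefree u ∧ x.val = s ^ 2 * u} := by
  classical
  have hs2 : 1 ≤ s ^ 2 := Nat.one_le_pow _ _ hs
  have hm1 : 1 ≤ m := hs2.trans hm
  rw [law_apply m hm1 (fun x => ∃ u, Squarefree u ∧ x = s ^ 2 * u)]
  apply ENNReal.ofReal_le_ofReal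
  obtain ⟨z, hz⟩ : ∃ z, z = m / s ^ 2 := ⟨_, rfl⟩
  have h1 : ((Finset.Icc 1 z).filter (fun u => Squarefree u)).card ≤
      ((Finset.Icc 1 m).filter (fun x => ∃ u, Squarefree u ∧ x = s ^ 2 * u)).card := by
    apply Finset.card_le_card_of_injOn (fun u => s ^ 2 * u)
    · intro u hu
      rw [Finset.mem_coe, Finset.mem_filter, Finset.mem_Icc] at hu
      rw [Finset.mem_coe, Finset.mem_filter, Finset.mem_Icc]
      refine ⟨⟨?_, ?_⟩, u, hu.2, rfl⟩
      · exact Nat.mul_pos hs2 hu.1.1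
      · have h2 : s ^ 2 * u ≤ s ^ 2 * z := Nat.mul_le_mul_left _ hu.1.2
        exact h2.trans (by rw [hz]; exact Nat.mul_div_le m (s ^ 2))
    · intro u _ v _ huv
      exact Nat.eq_of_mul_eq_mul_left hs2 huv
  have h2 := sqf_count26 z
  have h3 : m ≤ 2 * (s ^ 2 * z) := by
    have h4 := Nat.div_add_mod m (s ^ 2)
    have h5 := Nat.mod_lt m hs2
    have h6 : 1 ≤ z := by
      rw [hz]
      exact (Nat.one_le_div_iff hs2).mpr hm
    rw [← hz] at h4
    have h7 : s ^ 2 ≤ s ^ 2 * z := Nat.le_mul_of_pos_right _ h6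
    omega
  have h4 : m ≤ 24 * s ^ 2 *
      ((Finset.Icc 1 m).filter (fun x => ∃ u, Squarefree u ∧ x = s ^ 2 * u)).card := by
    calc m ≤ 2 * (s ^ 2 * z) := h3
      _ ≤ 2 * (s ^ 2 * (12 * ((Finset.Icc 1 m).filter
          (fun x => ∃ u, Squarefree u ∧ x = s ^ 2 * u)).card)) := by
        apply Nat.mul_le_mul_left
        apply Nat.mul_le_mul_left
        exact h2.trans (Nat.mul_le_mul_left _ h1)
      _ = _ := by ring
  have hm0 : (0 : ℝ) < m := by exact_mod_cast hm1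
  have hs0 : (0 : ℝ) < s := by exact_mod_cast hs
  rw [div_le_div_iff₀ (by positivity) hm0, one_mul]
  have h5 : (m : ℝ) ≤ 24 * (s : ℝ) ^ 2 *
      ((Finset.Icc 1 m).filter (fun x => ∃ u, Squarefree u ∧ x = s ^ 2 * u)).card := by
    exact_mod_cast h4
  linarith

theorem sq_dvd_B26 {s m : ℕ} (hm : m ≠ 0) (h : s ^ 2 ∣ m) : s ^ 2 ∣ B 2 m := by
  classical
  have hfac : (∏ i ∈ m.factorization.support with 2 ≤ m.factorization i, i ^ m.factorization i)
      * (∏ i ∈ m.factorization.support with ¬ 2 ≤ m.factorization i, i ^ m.factorization i)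
      = m := by
    rw [Finset.prod_filter_mul_prod_filter_not]
    exact Nat.prod_factorization_pow_eq_self hm
  have hcop : Nat.Coprime (s ^ 2)
      (∏ i ∈ m.factorization.support with ¬ 2 ≤ m.factorization i, i ^ m.factorization i) := by
    apply Nat.Coprime.prod_right
    intro i hi
    rw [Finset.mem_filter] at hi
    obtain ⟨hi1, hi2⟩ := hi
    have hip : i.Prime := Nat.prime_of_mem_primeFactors (by simpa using hi1)
    apply Nat.Coprime.pow
    rw [Nat.coprime_comm, Nat.Prime.coprime_iff_not_dvd hip]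
    intro hdvd
    apply hi2
    have h4 : i ^ 2 ∣ m := (pow_dvd_pow_of_dvd hdvd 2).trans h
    exact (hip.pow_dvd_iff_le_factorization hm).mp h4
  unfold B
  apply hcop.dvd_of_dvd_mul_right
  rw [hfac]
  exact h

end Pool.Agent.RM9
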