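import Pool.Agent.RM9.Prob
import Pool.Agent.RM9.LowS26

/-!
# RM9/Low: the square part of a uniform integer

PROOF of sq_unique. Compare factorizations: `s² u` has the exponent `2 s_p + u_p` with `u_p ≤ 1`, so `s_p` is half of it
(rounded down).

PROOF of sqf_count. The non-squarefree `u ≤ z` are divisible by `d²` for some `2 ≤ d ≤ z`: at most
`∑_(d=2)^z z/d² ≤ z (1/4 + 2/3) = 11 z/12` of them (`sum_Ioo_inv_sq_le` with `k = 2`).

PROOF of law_sq. `law_apply`; the set is in bijection with the squarefree `u ≤ m / s²`, and `⌊m/s²⌋ ≥ m/(2 s²)`.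

PROOF of sq_dvd_B: copy from Pool/Agent/Results/MP_b1ca28_nt/LogSquared.lean.
-/

set_option autoImplicit false

namespace Pool.Agent.RM9

open N8b628fb0 MeasureTheory ProbabilityTheory Filter

theorem sq_unique {s t u v : ℕ} (hs : 1 ≤ s) (ht : 1 ≤ t) (hu : Squarefree u) (hv : Squarefree v)
    (h : s ^ 2 * u = t ^ 2 * v) : s = t :=
  sq_unique26 hs hu hv h

theorem sqf_count (z : ℕ) : z ≤ 12 * ((Finset.Icc 1 z).filter (fun u => Squarefree u)).card :=
  sqf_count26 z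

/-- the square part of `x` is `s²` -/
def SP (s x : ℕ) : Prop := ∃ u, Squarefree u ∧ x = s ^ 2 * u

theorem law_sq (m s : ℕ) (hs : 1 ≤ s) (hm : s ^ 2 ≤ m) :
    ENNReal.ofReal (1 / (24 * (s : ℝ) ^ 2)) ≤ law m {x | SP s x.val} :=
  law_sq26 m s hs hm

theorem sq_dvd_B {s m : ℕ} (hm : m ≠ 0) (h : s ^ 2 ∣ m) : s ^ 2 ∣ B 2 m :=
  sq_dvd_B26 hm h

end Pool.Agent.RM9
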