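import Mathlib

set_option autoImplicit false

namespace Pool.Agent.RM9.S68

open Filter Finset

theorem tel_sq (w : ℕ) (hw : 1 ≤ w) (V : ℕ) (hV : w ≤ V) :
    1 / (w:ℝ) - 1 / (V:ℝ) ≤ ∑ t ∈ Ico w V, 1 / (t:ℝ)^2 := by
  induction V, hV using Nat.le_induction with
  | base => simp
  | succ V hV ih =>
    rw [Finset.sum_Ico_succ_top hV]
    have hV' : (0:ℝ) < V := by exact_mod_cast (lt_of_lt_of_le hw hV)
    have h1 : 1/(V:ℝ) - 1/((V+1 : ℕ):ℝ) ≤ 1/(V:ℝ)^2 := by
      push_cast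
      rw [div_sub_div _ _ hV'.ne' (by positivity), div_le_div_iff₀ (by positivity) (by positivity)]
      nlinarith
    linarith

theorem tel_log (a : ℕ) (ha : 1 ≤ a) (b : ℕ) (hb : a ≤ b) :
    Real.log b - Real.log a ≤ ∑ t ∈ Ico a b, 1 / (t:ℝ) := by
  induction b, hb using Nat.le_induction with
  | base => simp
  | succ b hb ih =>
    rw [Finset.sum_Ico_succ_top hb]
    have hb' : (0:ℝ) < b := by exact_mod_cast (lt_of_lt_of_le ha hb)
    have h1 : Real.log ((b+1 : ℕ):ℝ) - Real.log b ≤ 1/(b:ℝ) := by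
      rw [← Real.log_div (by positivity) hb'.ne']
      have h2 := Real.log_le_sub_one_of_pos (x := ((b+1 : ℕ):ℝ)/b) (by positivity)
      refine h2.trans (le_of_eq ?_)
      push_cast
      field_simp
      ring
    linarith

/-- the tuples of numbers `1 ≤ s_i`, `s_i² ≤ n` with product `≥ n (log n)^k` -/
noncomputable def SS (k n : ℕ) : Finset (Fin k → ℕ) := by
  classical
  exact (Fintype.piFinset fun _ : Fin k => Finset.Icc 1 (Nat.sqrt n)).filter
    fun s => (n : ℝ) * Real.log n ^ k ≤ ∏ i, (s i : ℝ)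

theorem core (m : ℕ) (hm : 2 ≤ m) (n : ℕ) (x : ℝ) (hx : 2 ≤ x) (hxn : x^(10*m) = n)
    (hl : 1 ≤ Real.log n) (hz : 8 * Real.log n ^ (m+1) ≤ x^m) :
    1 / (4 * (10*m)^m) / ((n:ℝ) * Real.log n) ≤ ∑ s ∈ SS (m+1) n, ∏ i, 1 / (s i : ℝ)^2 := by
  classical
  have hx0 : (0:ℝ) < x := by linarith
  set z : ℝ := x^m with hzd
  have hz1 : 1 ≤ z := one_le_pow₀ (by linarith)
  have hz0 : 0 < z := by linarith
  have hzn : z^10 = n := by rw [hzd, ← pow_mul, mul_comm m 10]; exact hxn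
  have hn0 : (0:ℝ) < n := by rw [← hzn]; positivity
  set Y : ℝ := (n:ℝ) * Real.log n ^ (m+1) with hY
  have hlk : 1 ≤ Real.log n ^ (m+1) := one_le_pow₀ hl
  have hY0 : 0 < Y := by positivity
  set a : ℕ := ⌈x^6⌉₊ with ha
  set b : ℕ := ⌊x^8⌋₊ with hb
  have ha1 : x^6 ≤ a := Nat.le_ceil _
  have ha2 : (a:ℝ) < x^6 + 1 := Nat.ceil_lt_add_one (by positivity)
  have hb1 : (b:ℝ) ≤ x^8 := Nat.floor_le (by positivity)
  have hb2 : x^8 < b + 1 := Nat.lt_floor_add_one _
  have h6 : (1:ℝ) ≤ x^6 := one_le_pow₀ (by linarith)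
  have ha0 : 1 ≤ a := by
    have : (1:ℝ) ≤ a := h6.trans ha1
    exact_mod_cast this
  set w : (Fin m → ℕ) → ℕ := fun s => ⌈Y / ∏ i, (s i : ℝ)⌉₊ with hw
  set V := Nat.sqrt n with hV
  have hV1 : z^5 < (V:ℝ) + 1 := by
    have h1 : n < (V+1)*(V+1) := Nat.lt_succ_sqrt n
    have h2 : (n:ℝ) < ((V:ℝ)+1)^2 := by
      have : (n:ℝ) < ((V+1)*(V+1) : ℕ) := by exact_mod_cast h1
      push_cast at this
      nlinarith
    rw [← hzn, show z^10 = (z^5)^2 by ring] at h2
    exact lt_of_pow_lt_pow_left₀ 2 (by positivity) h2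
  -- the members of the box
  have hbox : ∀ s ∈ Fintype.piFinset (fun _ : Fin m => Ico a (b+1)),
      (∀ i, x^6 ≤ (s i : ℝ) ∧ (s i : ℝ) ≤ x^8) ∧ z^6 ≤ ∏ i, (s i : ℝ) ∧ ∏ i, (s i : ℝ) ≤ z^8 := by
    intro s hs
    rw [Fintype.mem_piFinset] at hs
    have h1 : ∀ i, x^6 ≤ (s i : ℝ) ∧ (s i : ℝ) ≤ x^8 := by
      intro i
      have h2 := mem_Ico.1 (hs i)
      have h3 : (a:ℝ) ≤ s i := by exact_mod_cast h2.1
      have h4 : (s i : ℝ) ≤ b := by exact_mod_cast Nat.lt_succ_iff.1 h2.2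
      exact ⟨ha1.trans h3, h4.trans hb1⟩
    refine ⟨h1, ?_, ?_⟩
    · calc z^6 = ∏ _i : Fin m, x^6 := by
            rw [Finset.prod_const, Finset.card_univ, Fintype.card_fin, hzd, ← pow_mul, ← pow_mul,
              mul_comm]
        _ ≤ _ := Finset.prod_le_prod (fun _ _ => by positivity) fun i _ => (h1 i).1
    · calc ∏ i, (s i : ℝ) ≤ ∏ _i : Fin m, x^8 :=
            Finset.prod_le_prod (fun _ _ => by positivity) fun i _ => (h1 i).2
        _ = z^8 := by
            rw [Finset.prod_const, Finset.card_univ, Fintype.card_fin, hzd, ← pow_mul, ← pow_mul,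
              mul_comm]
  -- the inner sum
  have hin : ∀ s ∈ Fintype.piFinset (fun _ : Fin m => Ico a (b+1)),
      (1 ≤ w s ∧ Y ≤ (w s : ℝ) * ∏ i, (s i : ℝ)) ∧
      (∏ i, (s i : ℝ)) / (4 * Y) ≤ ∑ t ∈ Ico (w s) (V+1), 1 / (t:ℝ)^2 := by
    intro s hs
    obtain ⟨h1, h2, h3⟩ := hbox s hs
    set P := ∏ i, (s i : ℝ) with hP
    have hP0 : 0 < P := lt_of_lt_of_le (by positivity) h2
    have h4 : 1 ≤ Y / P := by
      rw [le_div_iff₀ hP0, one_mul]
      calc P ≤ z^8 := h3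
        _ ≤ z^10 := pow_le_pow_right₀ hz1 (by norm_num)
        _ = n * 1 := by rw [hzn, mul_one]
        _ ≤ Y := mul_le_mul_of_nonneg_left hlk hn0.le
    have h5 : 4 * (Y / P) ≤ z^5 := by
      rw [← mul_div_assoc, div_le_iff₀ hP0]
      calc 4 * Y = z^10 * (4 * Real.log n ^ (m+1)) := by rw [hY, ← hzn]; ring
        _ ≤ z^10 * z := mul_le_mul_of_nonneg_left (by linarith) (by positivity)
        _ = z^5 * z^6 := by ring
        _ ≤ z^5 * P := mul_le_mul_of_nonneg_left h2 (by positivity)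
    have h6' : (w s : ℝ) < Y / P + 1 := Nat.ceil_lt_add_one (by positivity)
    have h7 : Y / P ≤ w s := Nat.le_ceil _
    have h8 : (1:ℝ) ≤ w s := h4.trans h7
    have h9 : 1 ≤ w s := by exact_mod_cast h8
    have h10 : 2 * (w s : ℝ) ≤ V + 1 := by linarith
    have h11 : w s ≤ V + 1 := by
      have : (w s : ℝ) ≤ ((V+1 : ℕ) : ℝ) := by push_cast; linarith
      exact_mod_cast this
    refine ⟨⟨h9, ?_⟩, ?_⟩
    · rw [div_le_iff₀ hP0] at h7
      exact h7
    · refine le_trans ?_ (tel_sq (w s) h9 (V+1) h11)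
      push_cast
      have h12 : 1 / ((V:ℝ)+1) ≤ 1 / (2 * (w s : ℝ)) := one_div_le_one_div_of_le (by linarith) h10
      have h13 : 1 / (w s : ℝ) - 1 / (2 * (w s : ℝ)) = 1 / (2 * (w s : ℝ)) := by
        field_simp
        ring
      have h14 : P / (4 * Y) ≤ 1 / (2 * (w s : ℝ)) := by
        rw [div_le_div_iff₀ (by positivity) (by positivity)]
        have : (w s : ℝ) ≤ 2 * (Y / P) := by linarith
        have h15 : (w s : ℝ) * P ≤ 2 * Y := by
          calc (w s : ℝ) * P ≤ 2 * (Y / P) * P := mul_le_mul_of_nonneg_right this hP0.le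
            _ = 2 * Y := by field_simp
        nlinarith
      linarith
  -- restrict the sum
  set B := (Fintype.piFinset (fun _ : Fin m => Ico a (b+1))).sigma (fun s => Ico (w s) (V+1)) with hB
  set φ : (Σ _ : (Fin m → ℕ), ℕ) → (Fin (m+1) → ℕ) := fun p => Fin.cons p.2 p.1 with hφ
  have hinj : Set.InjOn φ B := by
    rintro ⟨s, t⟩ _ ⟨s', t'⟩ _ h
    have h1 := Fin.cons_injective2 h
    have e1 : t = t' := h1.1
    have e2 : s = s' := h1.2
    subst e1 e2
    rfl
  have hsub : B.image φ ⊆ SS (m+1) n := by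
    intro f hf
    rw [Finset.mem_image] at hf
    obtain ⟨⟨s, t⟩, hp, rfl⟩ := hf
    rw [hB, Finset.mem_sigma] at hp
    obtain ⟨hs, ht⟩ := hp
    simp only at hs ht
    obtain ⟨⟨h1, h2⟩, _⟩ := hin s hs
    obtain ⟨h3, h4, h5⟩ := hbox s hs
    rw [mem_Ico] at ht
    unfold SS
    rw [Finset.mem_filter, Fintype.mem_piFinset]
    constructor
    · intro i
      refine Fin.cases ?_ (fun j => ?_) i
      · simp only [hφ, Fin.cons_zero, Finset.mem_Icc]
        omega
      · simp only [hφ, Fin.cons_succ, Finset.mem_Icc]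
        obtain ⟨h6a, h7⟩ := h3 j
        constructor
        · have : (1:ℝ) ≤ s j := h6.trans h6a
          exact_mod_cast this
        · rw [Nat.le_sqrt]
          have h8 : ((s j : ℝ))*(s j) ≤ n := by
            calc ((s j : ℝ))*(s j) ≤ x^8 * x^8 := mul_le_mul h7 h7 (by positivity) (by positivity)
              _ = x^(8*2) := by ring
              _ ≤ x^(10*m) := pow_le_pow_right₀ (by linarith) (by omega)
              _ = n := hxn
          exact_mod_cast h8
    · rw [Fin.prod_univ_succ]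
      simp only [hφ, Fin.cons_zero, Fin.cons_succ]
      have h6b : (w s : ℝ) ≤ t := by exact_mod_cast ht.1
      calc (n:ℝ) * Real.log n ^ (m+1) = Y := hY.symm
        _ ≤ (w s : ℝ) * ∏ i, (s i : ℝ) := h2
        _ ≤ (t:ℝ) * ∏ i, (s i : ℝ) :=
            mul_le_mul_of_nonneg_right h6b (Finset.prod_nonneg fun _ _ => by positivity)
  have hL : Real.log x ≤ ∑ t ∈ Ico a (b+1), 1 / (t:ℝ) := by
    have hab : a ≤ b + 1 := by
      have : (a:ℝ) ≤ ((b+1 : ℕ):ℝ) := by
        push_cast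
        have : x^6 + 1 ≤ x^8 := by
          have e1 : x^8 = x^6 * x^2 := by ring
          have e2 : 4 ≤ x^2 := by nlinarith
          nlinarith
        linarith
      exact_mod_cast this
    refine le_trans ?_ (tel_log a ha0 (b+1) hab)
    have h1 : Real.log (x^8) ≤ Real.log ((b+1 : ℕ):ℝ) :=
      Real.log_le_log (by positivity) (by push_cast; linarith)
    have ha' : (0:ℝ) < a := by exact_mod_cast ha0
    have h2 : Real.log a ≤ Real.log (x^7) := by
      apply Real.log_le_log ha'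
      nlinarith [pow_pos hx0 6]
    rw [Real.log_pow] at h1 h2
    push_cast at *
    linarith
  have hlogn : Real.log n = 10 * m * Real.log x := by
    rw [← hxn, Real.log_pow]
    push_cast
    ring
  have hm0 : (0:ℝ) < m := by exact_mod_cast (by omega : 0 < m)
  have hlx : 0 < Real.log x := Real.log_pos (by linarith)
  calc 1 / (4 * (10*m)^m) / ((n:ℝ) * Real.log n)
      = (1 / (4 * Y)) * Real.log x ^ m := by
        rw [hY, hlogn, pow_succ, mul_pow, mul_pow]
        field_simp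
        ring
    _ ≤ (1 / (4 * Y)) * (∑ t ∈ Ico a (b+1), 1 / (t:ℝ))^m :=
        mul_le_mul_of_nonneg_left (pow_le_pow_left₀ hlx.le hL m) (by positivity)
    _ = (1 / (4 * Y)) * ∑ s ∈ Fintype.piFinset (fun _ : Fin m => Ico a (b+1)),
          ∏ i, 1 / (s i : ℝ) := by
        have h1 := Finset.prod_univ_sum (fun _ : Fin m => Ico a (b+1)) (fun _ t => 1 / (t:ℝ))
        rw [Finset.prod_const, Finset.card_univ, Fintype.card_fin] at h1
        rw [h1]
    _ = ∑ s ∈ Fintype.piFinset (fun _ : Fin m => Ico a (b+1)),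
          (∏ i, 1 / (s i : ℝ)^2) * ((∏ i, (s i : ℝ)) / (4 * Y)) := by
        rw [Finset.mul_sum]
        refine Finset.sum_congr rfl fun s hs => ?_
        have hpos : ∀ i, (0:ℝ) < s i := fun i =>
          lt_of_lt_of_le (by positivity) ((hbox s hs).1 i).1
        have h1 : ∏ i, 1 / (s i : ℝ) = (∏ i, 1 / (s i : ℝ)^2) * ∏ i, (s i : ℝ) := by
          rw [← Finset.prod_mul_distrib]
          refine Finset.prod_congr rfl fun i _ => ?_
          have := hpos i
          field_simp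
        rw [h1]
        ring
    _ ≤ ∑ s ∈ Fintype.piFinset (fun _ : Fin m => Ico a (b+1)),
          (∏ i, 1 / (s i : ℝ)^2) * ∑ t ∈ Ico (w s) (V+1), 1 / (t:ℝ)^2 :=
        Finset.sum_le_sum fun s hs => mul_le_mul_of_nonneg_left (hin s hs).2
          (Finset.prod_nonneg fun _ _ => by positivity)
    _ = ∑ p ∈ B, ∏ i, 1 / ((φ p) i : ℝ)^2 := by
        rw [hB, Finset.sum_sigma]
        refine Finset.sum_congr rfl fun s _ => ?_
        rw [Finset.mul_sum]
        refine Finset.sum_congr rfl fun t _ => ?_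
        rw [Fin.prod_univ_succ]
        simp only [hφ, Fin.cons_zero, Fin.cons_succ]
        ring
    _ = ∑ f ∈ B.image φ, ∏ i, 1 / (f i : ℝ)^2 := by
        rw [Finset.sum_image hinj]
    _ ≤ _ := Finset.sum_le_sum_of_subset_of_nonneg hsub fun _ _ _ =>
        Finset.prod_nonneg fun _ _ => by positivity

theorem low_sum (k : ℕ) (hk : 3 ≤ k) : ∃ c : ℝ, 0 < c ∧ ∀ᶠ n : ℕ in atTop,
    c / ((n : ℝ) * Real.log n) ≤ ∑ s ∈ SS k n, ∏ i, 1 / (s i : ℝ) ^ 2 := by
  obtain ⟨m, rfl⟩ : ∃ m, k = m + 1 := ⟨k - 1, by omega⟩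
  have hm : 2 ≤ m := by omega
  have hm0 : (0:ℝ) < m := by exact_mod_cast (by omega : 0 < m)
  refine ⟨1 / (4 * (10*m)^m), by positivity, ?_⟩
  have e1 : ∀ᶠ t : ℝ in atTop, 2 ≤ t ^ ((1:ℝ)/(10*m)) :=
    (tendsto_rpow_atTop (by positivity)).eventually_ge_atTop 2
  have e2 : ∀ᶠ t : ℝ in atTop, 1 ≤ Real.log t := Real.tendsto_log_atTop.eventually_ge_atTop 1
  have e3 : ∀ᶠ t : ℝ in atTop, 8 * Real.log t ^ (m+1) ≤ t ^ ((1:ℝ)/10) := by
    have h1 := (isLittleO_log_rpow_rpow_atTop ((m+1 : ℕ) : ℝ) (by norm_num : (0:ℝ) < 1/10)).bound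
      (by norm_num : (0:ℝ) < 1/8)
    filter_upwards [h1, e2, eventually_gt_atTop 0] with t h1 h2 h3
    rw [Real.norm_of_nonneg (by positivity), Real.norm_of_nonneg (by positivity),
      Real.rpow_natCast] at h1
    linarith
  filter_upwards [tendsto_natCast_atTop_atTop.eventually e1,
    tendsto_natCast_atTop_atTop.eventually e2, tendsto_natCast_atTop_atTop.eventually e3,
    eventually_gt_atTop 0] with n h1 h2 h3 h4
  have hn : (0:ℝ) ≤ n := Nat.cast_nonneg n
  have h5 : ((n:ℝ) ^ ((1:ℝ)/(10*m)))^(10*m) = n := by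
    rw [← Real.rpow_natCast, ← Real.rpow_mul hn]
    push_cast
    rw [one_div_mul_cancel (by positivity), Real.rpow_one]
  have h6 : ((n:ℝ) ^ ((1:ℝ)/(10*m)))^m = (n:ℝ) ^ ((1:ℝ)/10) := by
    rw [← Real.rpow_natCast, ← Real.rpow_mul hn]
    congr 1
    field_simp
  exact core m hm n _ h1 h5 h2 (by rw [h6]; exact h3)

end Pool.Agent.RM9.S68
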