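import Mathlib
import Pool.Agent.RM9.Low2S68

/-!
# RM9/Low2 (STUB): the lower bound for the sum over the square parts

Notation: `V = Nat.sqrt n`, `Y = n (log n)^k`; `k ≥ 3`.

PROOF of low_sum. Take the coordinate `Fin.last` (or `0`) for `s_k` and the other `k - 1` coordinates as follows. Let `r` be
the natural number with `r^(16 k) ≤ n < (r+1)^(16 k)` (`r → ∞`). Two coordinates run over `[r^(6k), r^(7k)]`, the other
`k - 3` over `[1, r]`, and `s_k` over `[w, V]`, `w = ⌈Y / ∏ s'⌉`. As `r^(12k) ≤ ∏ s' ≤ r^(15k)`, `Y / ∏ s' ≥ 1`, and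
`Y / ∏ s' ≤ 2^(16k) r^(4k) (log n)^k ≤ r^(8k)/8 ≤ V/4` for large `n`. So
`∑_(s_k) 1/s_k² ≥ 1/w - 1/(V+1) ≥ 1/(2w) ≥ ∏ s' / (4 Y)`, and the whole sum is at least
`(1/(4Y)) ∏_i ∑_(s_i) 1/s_i`, where `∑_(s ≤ r) 1/s ≥ log (r+1) ≥ log n/(16k)` and
`∑_(r^(6k) ≤ s ≤ r^(7k)) 1/s ≥ log (r^(7k)/r^(6k)) = k log r ≥ (log n)/32` (large `n`). Total `≥ c (log n)^(k-1) / Y =
c / (n log n)`.
-/

set_option autoImplicit false

namespace Pool.Agent.RM9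

open Filter

/-- the tuples of numbers `1 ≤ s_i`, `s_i² ≤ n` with product `≥ n (log n)^k` -/
noncomputable def SS (k n : ℕ) : Finset (Fin k → ℕ) := by
  classical
  exact (Fintype.piFinset fun _ : Fin k => Finset.Icc 1 (Nat.sqrt n)).filter
    fun s => (n : ℝ) * Real.log n ^ k ≤ ∏ i, (s i : ℝ)

theorem low_sum (k : ℕ) (hk : 3 ≤ k) : ∃ c : ℝ, 0 < c ∧ ∀ᶠ n : ℕ in atTop,
    c / ((n : ℝ) * Real.log n) ≤ ∑ s ∈ SS k n, ∏ i, 1 / (s i : ℝ) ^ 2 :=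
  S68.low_sum k hk

end Pool.Agent.RM9
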