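import Mathlib

/-!
# RM9/TelS34: two series with logarithms
-/

set_option autoImplicit false

namespace Pool.Agent.RM9

private theorem one_lt_log34 (n : ℕ) : 1 < Real.log ((n + 3 : ℕ) : ℝ) := by
  rw [Real.lt_log_iff_exp_lt (by positivity)]
  have h1 := Real.exp_one_lt_d9
  push_cast
  linarith [Nat.cast_nonneg (α := ℝ) n]

theorem summ2_34 :
    Summable fun n : ℕ => 1 / ((n : ℝ) * Real.log n * Real.log (Real.log n) ^ 2) := by
  rw [← summable_nat_add_iff 4]
  have hh : ∀ n : ℕ, 0 < Real.log (Real.log ((n + 3 : ℕ) : ℝ)) := fun n =>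
    Real.log_pos (one_lt_log34 n)
  have hnn : ∀ n : ℕ, 0 ≤ 1 / (((n + 4 : ℕ) : ℝ) * Real.log ((n + 4 : ℕ) : ℝ) *
      Real.log (Real.log ((n + 4 : ℕ) : ℝ)) ^ 2) := by
    intro n
    have h1 := one_lt_log34 (n + 1)
    have e : (n + 1 + 3 : ℕ) = n + 4 := by omega
    rw [e] at h1
    have h2 : 0 < Real.log ((n + 4 : ℕ) : ℝ) := by linarith
    positivity
  refine summable_of_sum_range_le (c := 1 / Real.log (Real.log ((0 + 3 : ℕ) : ℝ))) hnn ?_
  intro n
  have key : ∀ N : ℕ, ∑ i ∈ Finset.range N, 1 / (((i + 4 : ℕ) : ℝ) * Real.log ((i + 4 : ℕ) : ℝ) *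
      Real.log (Real.log ((i + 4 : ℕ) : ℝ)) ^ 2) ≤
      1 / Real.log (Real.log ((0 + 3 : ℕ) : ℝ)) - 1 / Real.log (Real.log ((N + 3 : ℕ) : ℝ)) := by
    intro N
    induction N with
    | zero => simp
    | succ N ih =>
      rw [Finset.sum_range_succ]
      have e3 : (N + 1 + 3 : ℕ) = N + 4 := by omega
      have a1 := one_lt_log34 N
      have b1 := one_lt_log34 (N + 1)
      have h1 := hh N
      have h2 := hh (N + 1)
      rw [e3] at b1 h2 ⊢
      obtain ⟨a, ha⟩ : ∃ a, a = Real.log ((N + 3 : ℕ) : ℝ) := ⟨_, rfl⟩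
      obtain ⟨b, hb⟩ : ∃ b, b = Real.log ((N + 4 : ℕ) : ℝ) := ⟨_, rfl⟩
      have hab : 1 / ((N + 4 : ℕ) : ℝ) ≤ b - a := by
        rw [ha, hb, ← Real.log_div (by positivity) (by positivity)]
        have h5 := Real.one_sub_inv_le_log_of_pos
          (show 0 < ((N + 4 : ℕ) : ℝ) / ((N + 3 : ℕ) : ℝ) by positivity)
        refine le_trans (le_of_eq ?_) h5
        push_cast
        field_simp
        ring
      rw [← ha] at a1 h1
      rw [← hb] at b1 h2
      rw [← ha] at ih
      rw [← hb]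
      have ha0 : 0 < a := by linarith
      have hb0 : 0 < b := by linarith
      have hm0 : (0 : ℝ) < ((N + 4 : ℕ) : ℝ) := by positivity
      have hab' : a ≤ b := by
        have : 0 < 1 / ((N + 4 : ℕ) : ℝ) := by positivity
        linarith
      have h3 : Real.log a ≤ Real.log b := Real.log_le_log ha0 hab'
      have h4 : 1 / (((N + 4 : ℕ) : ℝ) * b) ≤ Real.log b - Real.log a := by
        rw [← Real.log_div hb0.ne' ha0.ne']
        have h5 := Real.one_sub_inv_le_log_of_pos (show 0 < b / a by positivity)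
        refine le_trans ?_ h5
        rw [inv_div, div_le_iff₀ (by positivity)]
        have h6 : (1 - a / b) * (((N + 4 : ℕ) : ℝ) * b) = (b - a) * ((N + 4 : ℕ) : ℝ) := by
          field_simp
        rw [h6]
        rw [div_le_iff₀ hm0] at hab
        exact hab
      have h6 : 1 / (((N + 4 : ℕ) : ℝ) * b * Real.log b ^ 2) ≤ 1 / Real.log a - 1 / Real.log b := by
        rw [div_sub_div _ _ h1.ne' h2.ne']
        have h7 : 1 / (((N + 4 : ℕ) : ℝ) * b * Real.log b ^ 2) =
            (1 / (((N + 4 : ℕ) : ℝ) * b)) / (Real.log b ^ 2) := by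
          rw [div_div]
        rw [h7]
        have h8 : Real.log a * Real.log b ≤ Real.log b ^ 2 := by
          rw [sq]
          exact mul_le_mul_of_nonneg_right h3 h2.le
        have h9 : 0 ≤ Real.log b - Real.log a := by linarith
        calc (1 / (((N + 4 : ℕ) : ℝ) * b)) / (Real.log b ^ 2)
            ≤ (Real.log b - Real.log a) / (Real.log b ^ 2) :=
              div_le_div_of_nonneg_right h4 (by positivity)
          _ ≤ (Real.log b - Real.log a) / (Real.log a * Real.log b) :=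
              div_le_div_of_nonneg_left h9 (by positivity) h8
          _ = _ := by ring
      linarith
  have h := key n
  have h2 : 0 < 1 / Real.log (Real.log ((n + 3 : ℕ) : ℝ)) := by
    have := hh n
    positivity
  linarith

theorem nosumm_34 (k : ℕ) (hk : 1 ≤ k) (j0 : ℕ) (c : ℝ) (hc : 0 < c) :
    ¬ Summable fun j : ℕ => c / (((k * (j + j0) : ℕ) : ℝ) * Real.log ((k * (j + j0) : ℕ) : ℝ)) := by
  intro hs
  rw [← summable_nat_add_iff 3] at hs
  have hk' : (1 : ℝ) ≤ k := by exact_mod_cast hk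
  have hx : ∀ j : ℕ, (3 : ℝ) ≤ ((k * (j + 3 + j0) : ℕ) : ℝ) := by
    intro j
    have h1 : 3 ≤ k * (j + 3 + j0) := by nlinarith
    exact_mod_cast h1
  have hL : ∀ j : ℕ, 1 < Real.log ((k * (j + 3 + j0) : ℕ) : ℝ) := by
    intro j
    rw [Real.lt_log_iff_exp_lt (by linarith [hx j])]
    have h1 := Real.exp_one_lt_d9
    linarith [hx j]
  have hstep : ∀ j : ℕ, Real.log (Real.log ((k * (j + 1 + 3 + j0) : ℕ) : ℝ)) -
      Real.log (Real.log ((k * (j + 3 + j0) : ℕ) : ℝ)) ≤
      k / c * (c / (((k * (j + 3 + j0) : ℕ) : ℝ) * Real.log ((k * (j + 3 + j0) : ℕ) : ℝ))) := by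
    intro j
    have hL1 := hL j
    have hL2 := hL (j + 1)
    have hx1 := hx j
    have hx2 := hx (j + 1)
    obtain ⟨x, hxd⟩ : ∃ x : ℝ, x = ((k * (j + 3 + j0) : ℕ) : ℝ) := ⟨_, rfl⟩
    obtain ⟨y, hyd⟩ : ∃ y : ℝ, y = ((k * (j + 1 + 3 + j0) : ℕ) : ℝ) := ⟨_, rfl⟩
    have hyx : y = x + k := by
      rw [hxd, hyd]
      push_cast
      ring
    rw [← hxd] at hL1 hx1 ⊢
    rw [← hyd] at hL2 hx2 ⊢
    have hx0 : 0 < x := by linarith
    have hy0 : 0 < y := by linarith
    have h1 : Real.log y - Real.log x ≤ k / x := by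
      rw [← Real.log_div hy0.ne' hx0.ne']
      have h2 := Real.log_le_sub_one_of_pos (show 0 < y / x by positivity)
      refine h2.trans (le_of_eq ?_)
      rw [hyx]
      field_simp
      ring
    have hlx : 0 < Real.log x := by linarith
    have hly : 0 < Real.log y := by linarith
    have h2 : Real.log (Real.log y) - Real.log (Real.log x) ≤
        (Real.log y - Real.log x) / Real.log x := by
      rw [← Real.log_div hly.ne' hlx.ne']
      have h3 := Real.log_le_sub_one_of_pos (show 0 < Real.log y / Real.log x by positivity)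
      refine h3.trans (le_of_eq ?_)
      field_simp
    refine h2.trans ?_
    have h4 : k / c * (c / (x * Real.log x)) = (k / x) / Real.log x := by
      field_simp
    rw [h4]
    exact div_le_div_of_nonneg_right h1 hlx.le
  have hnn : ∀ j : ℕ, 0 ≤ c / (((k * (j + 3 + j0) : ℕ) : ℝ) *
      Real.log ((k * (j + 3 + j0) : ℕ) : ℝ)) := by
    intro j
    have h1 := hL j
    have h2 := hx j
    have h3 : 0 < Real.log ((k * (j + 3 + j0) : ℕ) : ℝ) := by linarith
    positivity
  have htel : ∀ n : ℕ, Real.log (Real.log ((k * (n + 3 + j0) : ℕ) : ℝ)) ≤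
      Real.log (Real.log ((k * (0 + 3 + j0) : ℕ) : ℝ)) + k / c *
        ∑ j ∈ Finset.range n, c / (((k * (j + 3 + j0) : ℕ) : ℝ) *
          Real.log ((k * (j + 3 + j0) : ℕ) : ℝ)) := by
    intro n
    induction n with
    | zero => simp
    | succ n ih =>
      rw [Finset.sum_range_succ, mul_add ((k : ℝ) / c)]
      have h1 := hstep n
      linarith
  have hlim : Filter.Tendsto (fun n : ℕ => Real.log (Real.log ((k * (n + 3 + j0) : ℕ) : ℝ)))
      Filter.atTop Filter.atTop := by
    refine Real.tendsto_log_atTop.comp (Real.tendsto_log_atTop.comp ?_)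
    refine Filter.tendsto_atTop_mono (f := fun n : ℕ => (n : ℝ)) ?_ tendsto_natCast_atTop_atTop
    intro n
    have h1 : n ≤ k * (n + 3 + j0) := by nlinarith
    exact_mod_cast h1
  obtain ⟨S, hS⟩ : ∃ S : ℝ, S = ∑' j : ℕ, c / (((k * (j + 3 + j0) : ℕ) : ℝ) *
      Real.log ((k * (j + 3 + j0) : ℕ) : ℝ)) := ⟨_, rfl⟩
  obtain ⟨n, hn⟩ := (hlim.eventually_gt_atTop
    (Real.log (Real.log ((k * (0 + 3 + j0) : ℕ) : ℝ)) + k / c * S)).exists
  have h1 := htel n
  have h2 : ∑ j ∈ Finset.range n, c / (((k * (j + 3 + j0) : ℕ) : ℝ) *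
      Real.log ((k * (j + 3 + j0) : ℕ) : ℝ)) ≤ S := by
    rw [hS]
    exact hs.sum_le_tsum _ fun j _ => hnn j
  have h3 : k / c * ∑ j ∈ Finset.range n, c / (((k * (j + 3 + j0) : ℕ) : ℝ) *
      Real.log ((k * (j + 3 + j0) : ℕ) : ℝ)) ≤ k / c * S :=
    mul_le_mul_of_nonneg_left h2 (by positivity)
  linarith

end Pool.Agent.RM9
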