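import Mathlib
import Pool.Agent.RM9.TelS34

/-!
# RM9/Tel: two series with logarithms

PROOF of summ2. With `h n = log (log n)` (positive and increasing for `n ≥ 16`):
`h (n+1) - h n = log (log (n+1) / log n) ≥ 1 - log n / log (n+1) = (log (n+1) - log n) / log (n+1) ≥
1 / ((n+1) log (n+1))`, so `1 / ((n+1) log (n+1) h(n+1)^2) ≤ 1 / h n - 1 / h (n+1)`; telescope (the file
RM9/Det.lean, theorem summ, is the same proof with `log` in the place of `log log`).

PROOF of nosumm. `log (log (n+1)) - log (log n) ≤ log (n+1) / log n - 1 ≤ 1 / (n log n)`, so the partial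
sums of `1 / (n log n)` are unbounded; for the multiples of `k` compare `1 / (k j log (k j))` with
`(1/k) * (1 / ((k j + i) log (k j + i)))`, `0 ≤ i < k` (or telescope `h (k (j+1)) - h (k j) ≤ 1/(j log (k j))`).
-/

set_option autoImplicit false

namespace Pool.Agent.RM9

theorem summ2 : Summable fun n : ℕ => 1 / ((n : ℝ) * Real.log n * Real.log (Real.log n) ^ 2) := by
  exact summ2_34

theorem nosumm (k : ℕ) (hk : 1 ≤ k) (j0 : ℕ) (c : ℝ) (hc : 0 < c) :
    ¬ Summable fun j : ℕ => c / (((k * (j + j0) : ℕ) : ℝ) * Real.log ((k * (j + j0) : ℕ) : ℝ)) := by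
  exact nosumm_34 k hk j0 c hc

end Pool.Agent.RM9
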