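import Pool.Agent.RM9.UpB
import Pool.Agent.RM9.Tel
import Pool.Agent.RM9.Low
import Pool.Agent.RM9.Low2
import Pool.Agent.RM9.Ind

/-!
# RM9/Main2: the sharp form
-/

set_option autoImplicit false

namespace Pool.Agent.RM9

open N8b628fb0 MeasureTheory ProbabilityTheory Filter Topology

theorem num2 (k n : ℕ) (hn : 3 ≤ n) (hk : k + 1 ≤ n) :
    2 * Z / Real.sqrt ((n : ℝ) ^ 2 * Real.log n ^ (2 * (k + 1)) * Real.log (Real.log n) ^ 4) *
      (Z * (1 + Real.log (n + (k + 1) : ℕ))) ^ k ≤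
      2 * Z * (3 * Z) ^ k * (1 / ((n : ℝ) * Real.log n * Real.log (Real.log n) ^ 2)) := by
  have hn0 : (0 : ℝ) < n := by exact_mod_cast (by omega : 0 < n)
  have hn3 : (3 : ℝ) ≤ n := by exact_mod_cast hn
  have hl1 : 1 < Real.log n := by
    rw [Real.lt_log_iff_exp_lt hn0]
    have := Real.exp_one_lt_d9
    linarith
  have hl0 : 0 < Real.log n := by linarith
  have hll : 0 < Real.log (Real.log n) := Real.log_pos hl1
  have h1 : 1 + Real.log (n + (k + 1) : ℕ) ≤ 3 * Real.log n := by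
    have h2 : Real.log (n + (k + 1) : ℕ) ≤ Real.log (2 * n) := by
      apply Real.log_le_log (by exact_mod_cast (by omega : 0 < n + (k + 1)))
      push_cast
      have : ((k : ℝ) + 1) ≤ n := by exact_mod_cast hk
      linarith
    rw [Real.log_mul (by norm_num) hn0.ne'] at h2
    have h3 := Real.log_two_lt_d9
    linarith
  have h0 : 0 ≤ 1 + Real.log (n + (k + 1) : ℕ) := by
    have : 0 ≤ Real.log (n + (k + 1) : ℕ) := Real.log_natCast_nonneg _
    linarith
  have hZ := Z_nonneg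
  have h4 : (Z * (1 + Real.log (n + (k + 1) : ℕ))) ^ k ≤ (3 * Z) ^ k * Real.log n ^ k := by
    rw [← mul_pow]
    refine pow_le_pow_left₀ (mul_nonneg hZ h0) ?_ k
    calc Z * (1 + Real.log (n + (k + 1) : ℕ)) ≤ Z * (3 * Real.log n) :=
          mul_le_mul_of_nonneg_left h1 hZ
      _ = _ := by ring
  have h5 : Real.sqrt ((n : ℝ) ^ 2 * Real.log n ^ (2 * (k + 1)) * Real.log (Real.log n) ^ 4) =
      n * Real.log n ^ (k + 1) * Real.log (Real.log n) ^ 2 := by
    have : (n : ℝ) ^ 2 * Real.log n ^ (2 * (k + 1)) * Real.log (Real.log n) ^ 4 =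
        (n * Real.log n ^ (k + 1) * Real.log (Real.log n) ^ 2) ^ 2 := by ring
    rw [this, Real.sqrt_sq (by positivity)]
  rw [h5]
  refine (mul_le_mul_of_nonneg_left h4 (by positivity)).trans (le_of_eq ?_)
  rw [pow_succ (Real.log n) k]
  field_simp

theorem upper2 (k : ℕ) (hk : 1 ≤ k) : ∀ᵐ ω ∂P, ∀ᶠ n : ℕ in atTop,
    (PkX k n ω : ℝ) ≤ (n : ℝ) ^ 2 * Real.log n ^ (2 * k) * Real.log (Real.log n) ^ 4 := by
  classical
  obtain ⟨l, rfl⟩ : ∃ l, k = l + 1 := ⟨k - 1, by omega⟩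
  obtain ⟨A, hA⟩ : ∃ A : ℕ → Set (∀ m, Om m), A = fun n => if 3 + l ≤ n then
    {ω | (n : ℝ) ^ 2 * Real.log n ^ (2 * (l + 1)) * Real.log (Real.log n) ^ 4 ≤
      (PkX (l + 1) n ω : ℝ)} else ∅ := ⟨_, rfl⟩
  have hs : ∑' n, P (A n) ≠ ⊤ := by
    have h1 : ∀ n, P (A n) ≤ ENNReal.ofReal
        (2 * Z * (3 * Z) ^ l * (1 / ((n : ℝ) * Real.log n * Real.log (Real.log n) ^ 2))) := by
      intro n
      rw [hA]
      simp only
      split_ifs with h
      · have hn0 : (0 : ℝ) < n := by exact_mod_cast (by omega : 0 < n)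
        have hn3 : (3 : ℝ) ≤ n := by exact_mod_cast (by omega : 3 ≤ n)
        have hl1 : 1 < Real.log n := by
          rw [Real.lt_log_iff_exp_lt hn0]
          have := Real.exp_one_lt_d9
          linarith
        have hl0 : 0 < Real.log n := by linarith
        have hll : 0 < Real.log (Real.log n) := Real.log_pos hl1
        refine (tail2 l n (by omega) _ (by positivity)).trans ?_
        exact ENNReal.ofReal_le_ofReal (num2 l n (by omega) (by omega))
      · rw [measure_empty]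
        exact zero_le
    exact ne_top_of_le_ne_top (summ2.mul_left _).tsum_ofReal_ne_top (ENNReal.tsum_le_tsum h1)
  filter_upwards [ae_eventually_notMem hs] with ω hω
  filter_upwards [hω, eventually_ge_atTop (3 + l)] with n h1 h2
  rw [hA] at h1
  simp only [if_pos h2, Set.mem_ofPred_eq, not_le] at h1
  exact h1.le

/-- the event that the square part of `X_(n+i)` is `s_i²` for all `i < k` -/
theorem P_SP (k n : ℕ) (s : Fin k → ℕ) (hs : ∀ i, 1 ≤ s i) (hn : ∀ i, s i ^ 2 ≤ n) :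
    ENNReal.ofReal (∏ i, 1 / (24 * (s i : ℝ) ^ 2)) ≤
      P {ω | ∀ i : Fin k, SP (s i) (ω (n + i)).val} := by
  classical
  obtain ⟨t, ht⟩ : ∃ t : ∀ m, Set (Om m), t = fun m => {x | ∀ h : m - n < k, SP (s ⟨m - n, h⟩) x.val} :=
    ⟨_, rfl⟩
  have h1 : {ω : ∀ m, Om m | ∀ i : Fin k, SP (s i) (ω (n + i)).val} =
      Set.pi (Finset.Ico n (n + k) : Finset ℕ) t := by
    ext ω
    rw [Set.mem_ofPred_eq, Set.mem_pi]
    constructor
    · intro h m hm
      rw [Finset.mem_coe, Finset.mem_Ico] at hm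
      rw [ht]
      intro hmk
      have h2 := h ⟨m - n, hmk⟩
      have e : n + (m - n) = m := by omega
      simp only at h2
      rw [show (ω (n + (m - n))).val = (ω m).val by rw [e]] at h2
      exact h2
    · intro h i
      have h2 := h (n + i) (by rw [Finset.mem_coe, Finset.mem_Ico]; omega)
      rw [ht] at h2
      have h3 := h2 (by show n + (i : ℕ) - n < k; omega)
      have e : (⟨n + (i : ℕ) - n, by omega⟩ : Fin k) = i := by
        apply Fin.ext
        simp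
      rw [e] at h3
      exact h3
  rw [h1]
  unfold P
  rw [Measure.infinitePi_pi _ (fun m _ => MeasurableSet.of_discrete)]
  rw [Finset.prod_Ico_eq_prod_range, Nat.add_sub_cancel_left, Finset.prod_range]
  rw [ENNReal.ofReal_prod_of_nonneg (fun i _ => by positivity)]
  refine Finset.prod_le_prod' fun i _ => ?_
  refine le_trans (law_sq (n + i) (s i) (hs i) ((hn i).trans (Nat.le_add_right _ _)))
    (measure_mono ?_)
  intro x hx
  rw [ht]
  intro hh
  have e : (⟨n + (i : ℕ) - n, by omega⟩ : Fin k) = i := by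
    apply Fin.ext
    simp
  rw [e]
  exact hx

theorem PkX_ge (k n : ℕ) (s : Fin k → ℕ) (ω : ∀ m, Om m)
    (h : ∀ i : Fin k, SP (s i) (ω (n + i)).val) : (∏ i, (s i : ℝ)) ^ 2 ≤ PkX k n ω := by
  unfold PkX
  rw [Finset.prod_Ico_eq_prod_range, Nat.add_sub_cancel_left, Finset.prod_range, ← Finset.prod_pow]
  push_cast
  refine Finset.prod_le_prod (fun i _ => by positivity) fun i _ => ?_
  have h1 : (s i) ^ 2 ∣ (ω (n + i)).val := by
    obtain ⟨u, _, hu⟩ := h i
    exact ⟨u, hu⟩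
  have hX := (Finset.mem_Icc.1 (ω (n + i)).2).1
  have h2 := sq_dvd_B (by omega) h1
  have h3 : 0 < B 2 (ω (n + i)).val := by
    obtain ⟨a, b, ha, hb, h⟩ := B_ab (ω (n + i)).val
    rw [h]
    exact Nat.mul_pos (Nat.pow_pos ha) (Nat.pow_pos hb)
  exact_mod_cast Nat.le_of_dvd h3 h2

theorem prob_low (k n : ℕ) (hn : 1 ≤ n) :
    ENNReal.ofReal ((1 / 24) ^ k * ∑ s ∈ SS k n, ∏ i, 1 / (s i : ℝ) ^ 2) ≤
      P {ω | (n : ℝ) ^ 2 * Real.log n ^ (2 * k) ≤ (PkX k n ω : ℝ)} := by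
  classical
  have hmem : ∀ s ∈ SS k n, (∀ i, 1 ≤ s i) ∧ (∀ i, s i ^ 2 ≤ n) ∧
      (n : ℝ) * Real.log n ^ k ≤ ∏ i, (s i : ℝ) := by
    intro s hs
    unfold SS at hs
    rw [Finset.mem_filter, Fintype.mem_piFinset] at hs
    refine ⟨fun i => (Finset.mem_Icc.1 (hs.1 i)).1, fun i => ?_, hs.2⟩
    have h1 := (Finset.mem_Icc.1 (hs.1 i)).2
    exact (Nat.pow_le_pow_left h1 2).trans (Nat.sqrt_le' n)
  have hsub : (⋃ s ∈ SS k n, {ω : ∀ m, Om m | ∀ i : Fin k, SP (s i) (ω (n + i)).val}) ⊆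
      {ω | (n : ℝ) ^ 2 * Real.log n ^ (2 * k) ≤ (PkX k n ω : ℝ)} := by
    intro ω hω
    rw [Set.mem_iUnion₂] at hω
    obtain ⟨s, hs, h⟩ := hω
    rw [Set.mem_ofPred_eq]
    refine le_trans ?_ (PkX_ge k n s ω h)
    have h1 := (hmem s hs).2.2
    have hl : 0 ≤ Real.log n := Real.log_natCast_nonneg _
    calc (n : ℝ) ^ 2 * Real.log n ^ (2 * k) = ((n : ℝ) * Real.log n ^ k) ^ 2 := by ring
      _ ≤ _ := pow_le_pow_left₀ (by positivity) h1 2
  refine le_trans ?_ (measure_mono hsub)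
  rw [measure_biUnion_finset]
  · have h2 : (1 / 24 : ℝ) ^ k * ∑ s ∈ SS k n, ∏ i, 1 / (s i : ℝ) ^ 2 =
        ∑ s ∈ SS k n, ∏ i, 1 / (24 * (s i : ℝ) ^ 2) := by
      rw [Finset.mul_sum]
      refine Finset.sum_congr rfl fun s _ => ?_
      have h3 : (1 / 24 : ℝ) ^ k = ∏ _i : Fin k, (1 / 24 : ℝ) := by
        rw [Finset.prod_const, Finset.card_univ, Fintype.card_fin]
      rw [h3, ← Finset.prod_mul_distrib]
      exact Finset.prod_congr rfl fun i _ => one_div_mul_one_div _ _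
    rw [h2, ENNReal.ofReal_sum_of_nonneg (fun s _ => Finset.prod_nonneg fun i _ => by positivity)]
    exact Finset.sum_le_sum fun s hs => P_SP k n s (hmem s hs).1 (hmem s hs).2.1
  · intro s hs t ht hst
    rw [Function.onFun, Set.disjoint_left]
    intro ω h1 h2
    apply hst
    funext i
    obtain ⟨u, hu, h3⟩ := h1 i
    obtain ⟨v, hv, h4⟩ := h2 i
    exact sq_unique ((hmem s hs).1 i) ((hmem t ht).1 i) hu hv (h3.symm.trans h4)
  · intro s _
    have h1 : {ω : ∀ m, Om m | ∀ i : Fin k, SP (s i) (ω (n + i)).val} =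
        ⋂ i : Fin k, (fun ω : ∀ m, Om m => ω (n + i)) ⁻¹' {x | SP (s i) x.val} := by
      ext ω
      simp
    rw [h1]
    exact MeasurableSet.iInter fun i => (measurable_pi_apply _) MeasurableSet.of_discrete

theorem lower2 (k : ℕ) (hk : 3 ≤ k) : ∀ᵐ ω ∂P, ∃ᶠ n : ℕ in atTop,
    (n : ℝ) ^ 2 * Real.log n ^ (2 * k) ≤ (PkX k n ω : ℝ) := by
  obtain ⟨c, hc, hlow⟩ := low_sum k hk
  obtain ⟨N, hN⟩ := eventually_atTop.1 hlow
  obtain ⟨j0, hj0⟩ : ∃ j0, j0 = N + 1 := ⟨_, rfl⟩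
  obtain ⟨y, hy⟩ : ∃ y : ℕ → ℝ, y = fun j => ((k * (j + j0) : ℕ) : ℝ) ^ 2 *
    Real.log ((k * (j + j0) : ℕ) : ℝ) ^ (2 * k) := ⟨_, rfl⟩
  obtain ⟨E, hE⟩ : ∃ E : ℕ → Set (∀ m, Om m), E = fun j =>
    {ω : ∀ m, Om m | y j ≤ (PkX k (k * (j + j0)) ω : ℝ)} := ⟨_, rfl⟩
  have hind : iIndepSet E P := by
    rw [hE]
    exact indep_windows k j0 (by omega) y
  have hEm : ∀ j, MeasurableSet (E j) := by
    intro j
    rw [hE]
    have h1 : Measurable fun ω : ∀ m, Om m => (PkX k (k * (j + j0)) ω : ℝ) :=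
      measurable_from_nat.comp (meas_PkX k _)
    exact measurableSet_le measurable_const h1
  have hlw : ∀ j, ENNReal.ofReal ((1 / 24) ^ k * c /
      (((k * (j + j0) : ℕ) : ℝ) * Real.log ((k * (j + j0) : ℕ) : ℝ))) ≤ P (E j) := by
    intro j
    have hn1 : N ≤ k * (j + j0) := by
      calc N ≤ j + j0 := by omega
        _ = 1 * (j + j0) := (one_mul _).symm
        _ ≤ k * (j + j0) := Nat.mul_le_mul_right _ (by omega)
    have hn2 : 1 ≤ k * (j + j0) := Nat.mul_pos (by omega) (by omega)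
    have h1 := prob_low k (k * (j + j0)) hn2
    rw [hE, hy]
    refine le_trans (ENNReal.ofReal_le_ofReal ?_) h1
    rw [mul_div_assoc]
    exact mul_le_mul_of_nonneg_left (hN _ hn1) (by positivity)
  have hinf : ∑' j, P (E j) = ⊤ := by
    by_contra hcon
    have h1 : Summable fun j : ℕ => (P (E j)).toReal := ENNReal.summable_toReal hcon
    refine nosumm k (by omega) j0 ((1 / 24) ^ k * c) (by positivity) ?_
    refine Summable.of_nonneg_of_le (fun j => ?_) (fun j => ?_) h1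
    · have : 0 ≤ Real.log ((k * (j + j0) : ℕ) : ℝ) := Real.log_natCast_nonneg _
      positivity
    · exact (ENNReal.ofReal_le_iff_le_toReal (measure_ne_top _ _)).1 (hlw j)
  have h1 := measure_limsup_eq_one hEm hind hinf
  have h2 : ∀ᵐ ω ∂P, ω ∈ limsup E atTop := by
    rw [← prob_compl_eq_zero_iff (MeasurableSet.measurableSet_limsup hEm)] at h1
    exact h1
  filter_upwards [h2] with ω hω
  rw [mem_limsup_iff_frequently_mem] at hω
  have h3 : Tendsto (fun j : ℕ => k * (j + j0)) atTop atTop := by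
    refine Tendsto.const_mul_atTop' (by omega) ?_
    exact tendsto_add_atTop_nat j0
  refine h3.frequently (hω.mono fun j hj => ?_)
  rw [hE] at hj
  rw [hy] at hj
  exact hj

end Pool.Agent.RM9
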