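import Pool.Agent.RM9.Det

/-!
# RM9/Prob: independent uniform integers
-/

set_option autoImplicit false

namespace Pool.Agent.RM9

open N8b628fb0 MeasureTheory ProbabilityTheory Filter

/-- the set `{1, …, m}` (`{1}` for `m = 0`) -/
abbrev Om (m : ℕ) : Type := {x : ℕ // x ∈ Finset.Icc 1 (max m 1)}

instance (m : ℕ) : Nonempty (Om m) := ⟨⟨1, by rw [Finset.mem_Icc]; omega⟩⟩

/-- the uniform law on `{1, …, m}` -/
noncomputable def law (m : ℕ) : Measure (Om m) := (PMF.uniformOfFintype (Om m)).toMeasure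

instance (m : ℕ) : IsProbabilityMeasure (law m) := by
  unfold law
  infer_instance

/-- the product of the laws: independent uniform integers `X_m` in `{1, …, m}` -/
noncomputable def P : Measure (∀ m, Om m) := Measure.infinitePi law

instance : IsProbabilityMeasure P := by
  unfold P
  infer_instance

theorem card_Om (m : ℕ) (hm : 1 ≤ m) : Fintype.card (Om m) = m := by
  rw [Fintype.card_coe, Nat.card_Icc]
  omega

theorem law_apply (m : ℕ) (hm : 1 ≤ m) (Q : ℕ → Prop) [DecidablePred Q] :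
    law m {x | Q x.val} = ENNReal.ofReal (((Finset.Icc 1 m).filter Q).card / m) := by
  unfold law
  have hmeas : MeasurableSet {x : Om m | Q x.val} := MeasurableSet.of_discrete
  classical
  rw [PMF.toMeasure_uniformOfFintype_apply _ hmeas, card_Om m hm]
  have h1 : Fintype.card {x : Om m // Q x.val} = ((Finset.Icc 1 m).filter Q).card := by
    rw [Fintype.card_subtype]
    have h2 : (Finset.Icc 1 m).filter Q =
        (Finset.univ.filter fun x : Om m => Q x.val).image (fun x => x.val) := by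
      ext y
      rw [Finset.mem_filter, Finset.mem_image]
      constructor
      · rintro ⟨h3, h4⟩
        rw [Finset.mem_Icc] at h3
        exact ⟨⟨y, by rw [Finset.mem_Icc]; omega⟩, by simpa using h4, rfl⟩
      · rintro ⟨x, hx, rfl⟩
        have h3 := x.2
        rw [Finset.mem_Icc] at h3 ⊢
        exact ⟨by omega, (Finset.mem_filter.1 hx).2⟩
    rw [h2, Finset.card_image_of_injective _ Subtype.val_injective]
  have h4 : Fintype.card ↑{x : Om m | Q x.val} = ((Finset.Icc 1 m).filter Q).card := by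
    rw [← h1]
    exact Fintype.card_congr (Equiv.refl _)
  rw [h4]
  have hm0 : (0 : ℝ) < m := by exact_mod_cast hm
  rw [ENNReal.ofReal_div_of_pos hm0, ENNReal.ofReal_natCast, ENNReal.ofReal_natCast]

theorem law_dvd (m d : ℕ) (hm : 1 ≤ m) (hd : 1 ≤ d) :
    law m {x | d ∣ x.val} ≤ ENNReal.ofReal (1 / d) := by
  rw [law_apply m hm (fun x => d ∣ x)]
  apply ENNReal.ofReal_le_ofReal
  have h1 : ((Finset.Icc 1 m).filter (fun x => d ∣ x)).card = m / d := by
    have h2 := Nat.Ioc_filter_dvd_card_eq_div m d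
    rw [← h2]
    congr 1
  rw [h1]
  have hm0 : (0 : ℝ) < m := by exact_mod_cast hm
  have hd0 : (0 : ℝ) < d := by exact_mod_cast hd
  have h3 : ((m / d : ℕ) : ℝ) ≤ m / d := Nat.cast_div_le
  rw [div_le_div_iff₀ hm0 hd0]
  calc ((m / d : ℕ) : ℝ) * d ≤ m / d * d := mul_le_mul_of_nonneg_right h3 hd0.le
    _ = 1 * m := by field_simp

/-- the product of the 2-full parts of `X_n, …, X_(n+k-1)` -/
noncomputable def PkX (k n : ℕ) (ω : ∀ m, Om m) : ℕ := ∏ m ∈ Finset.Ico n (n + k), B 2 (ω m).val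

theorem meas_PkX (k n : ℕ) : Measurable (PkX k n) := by
  unfold PkX
  refine Finset.measurable_prod _ fun m _ => ?_
  exact (measurable_of_countable (fun x : Om m => B 2 x.val)).comp (measurable_pi_apply m)

/-- the event that `d_i` divides `X_(n+i)` for all `i < k` -/
theorem P_dvd (k n : ℕ) (hn : 1 ≤ n) (d : Fin k → ℕ) (hd : ∀ i, 1 ≤ d i) :
    P {ω | ∀ i : Fin k, d i ∣ (ω (n + i)).val} ≤ ENNReal.ofReal (∏ i, 1 / (d i : ℝ)) := by
  classical
  obtain ⟨t, ht⟩ : ∃ t : ∀ m, Set (Om m), t = fun m => {x | ∀ h : m - n < k, d ⟨m - n, h⟩ ∣ x.val} :=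
    ⟨_, rfl⟩
  have h1 : {ω : ∀ m, Om m | ∀ i : Fin k, d i ∣ (ω (n + i)).val} =
      Set.pi (Finset.Ico n (n + k) : Finset ℕ) t := by
    ext ω
    rw [Set.mem_ofPred_eq, Set.mem_pi]
    constructor
    · intro h m hm
      rw [Finset.mem_coe, Finset.mem_Ico] at hm
      rw [ht]
      intro hmk
      have h2 := h ⟨m - n, hmk⟩
      have e : n + (m - n) = m := by omega
      simp only at h2
      rw [show (ω (n + (m - n))).val = (ω m).val by rw [e]] at h2
      exact h2
    · intro h i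
      have h2 := h (n + i) (by rw [Finset.mem_coe, Finset.mem_Ico]; omega)
      rw [ht] at h2
      have h3 := h2 (by show n + (i : ℕ) - n < k; omega)
      have e : (⟨n + (i : ℕ) - n, by omega⟩ : Fin k) = i := by
        apply Fin.ext
        simp
      rw [e] at h3
      exact h3
  rw [h1]
  unfold P
  rw [Measure.infinitePi_pi _ (fun m _ => MeasurableSet.of_discrete)]
  rw [Finset.prod_Ico_eq_prod_range, Nat.add_sub_cancel_left, Finset.prod_range]
  rw [ENNReal.ofReal_prod_of_nonneg (fun i _ => by positivity)]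
  refine Finset.prod_le_prod' fun i _ => ?_
  refine le_trans (measure_mono ?_) (law_dvd (n + i) (d i) (by omega) (hd i))
  intro x hx
  rw [ht] at hx
  have h3 := hx (by show n + (i : ℕ) - n < k; omega)
  have e : (⟨n + (i : ℕ) - n, by omega⟩ : Fin k) = i := by
    apply Fin.ext
    simp
  rw [e] at h3
  exact h3

/-- the constant -/
noncomputable def Z : ℝ := ∑' b : ℕ, 1 / (b : ℝ) ^ (3 / 2 : ℝ)

theorem Z_nonneg : 0 ≤ Z := tsum_nonneg fun b => by positivity

/-- the box sum -/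
theorem box_sum (M : ℕ) (hM : 1 ≤ M) :
    ∑ x ∈ Finset.Icc 1 M ×ˢ Finset.Icc 1 M, 1 / Real.sqrt ((x.1 ^ 2 * x.2 ^ 3 : ℕ) : ℝ) ≤
      Z * (1 + Real.log M) := by
  have h1 : ∀ x ∈ Finset.Icc 1 M ×ˢ Finset.Icc 1 M,
      1 / Real.sqrt ((x.1 ^ 2 * x.2 ^ 3 : ℕ) : ℝ) = (1 / (x.1 : ℝ)) * (1 / (x.2 : ℝ) ^ (3 / 2 : ℝ)) := by
    intro x hx
    rw [Finset.mem_product, Finset.mem_Icc, Finset.mem_Icc] at hx
    have ha : (0 : ℝ) < x.1 := by exact_mod_cast hx.1.1
    have hb : (0 : ℝ) < x.2 := by exact_mod_cast hx.2.1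
    push_cast
    rw [Real.sqrt_mul (by positivity), Real.sqrt_sq ha.le]
    have h2 : Real.sqrt ((x.2 : ℝ) ^ 3) = (x.2 : ℝ) ^ (3 / 2 : ℝ) := by
      rw [Real.sqrt_eq_rpow, ← Real.rpow_natCast, ← Real.rpow_mul hb.le]
      norm_num
    rw [h2, one_div_mul_one_div]
  rw [Finset.sum_congr rfl h1, Finset.sum_product]
  simp only
  rw [← Finset.sum_mul_sum]
  have h3 : ∑ a ∈ Finset.Icc 1 M, 1 / (a : ℝ) ≤ 1 + Real.log M := by
    have h4 := harmonic_le_one_add_log M
    rw [harmonic_eq_sum_Icc] at h4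
    push_cast at h4
    simpa [one_div] using h4
  have h5 : ∑ b ∈ Finset.Icc 1 M, 1 / (b : ℝ) ^ (3 / 2 : ℝ) ≤ Z :=
    (Real.summable_one_div_nat_rpow.2 (by norm_num)).sum_le_tsum _ fun b _ => by positivity
  have h6 : 0 ≤ ∑ b ∈ Finset.Icc 1 M, 1 / (b : ℝ) ^ (3 / 2 : ℝ) :=
    Finset.sum_nonneg fun b _ => by positivity
  have h7 : 0 ≤ 1 + Real.log M := by
    have : 0 ≤ Real.log M := Real.log_nonneg (by exact_mod_cast hM)
    linarith
  calc _ ≤ (1 + Real.log M) * Z := mul_le_mul h3 h5 h6 h7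
    _ = _ := mul_comm _ _

/-- tail bound -/
theorem tail (k n : ℕ) (hn : 1 ≤ n) (y : ℝ) (hy : 0 < y) :
    P {ω | y ≤ (PkX k n ω : ℝ)} ≤
      ENNReal.ofReal ((Z * (1 + Real.log (n + k : ℕ))) ^ k / Real.sqrt y) := by
  classical
  obtain ⟨bx, hbx⟩ : ∃ bx, bx = Finset.Icc 1 (n + k) ×ˢ Finset.Icc 1 (n + k) := ⟨_, rfl⟩
  obtain ⟨dd, hdd⟩ : ∃ dd : (Fin k → ℕ × ℕ) → Fin k → ℕ,
    dd = fun c i => (c i).1 ^ 2 * (c i).2 ^ 3 := ⟨_, rfl⟩
  obtain ⟨T, hT⟩ : ∃ T, T = (Fintype.piFinset fun _ : Fin k => bx).filter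
    (fun c => y ≤ ∏ i, (dd c i : ℝ)) := ⟨_, rfl⟩
  have hsub : {ω : ∀ m, Om m | y ≤ (PkX k n ω : ℝ)} ⊆
      ⋃ c ∈ T, {ω | ∀ i : Fin k, dd c i ∣ (ω (n + i)).val} := by
    intro ω hω
    rw [Set.mem_ofPred_eq] at hω
    choose a b ha hb hab using fun m : ℕ => B_ab m
    have hX : ∀ m, 1 ≤ (ω m).val ∧ (ω m).val ≤ max m 1 := fun m => Finset.mem_Icc.1 (ω m).2
    have hdv : ∀ m, a (ω m).val ^ 2 * b (ω m).val ^ 3 ∣ (ω m).val := by
      intro m
      rw [← hab]
      exact B_dvd (by have := (hX m).1; omega)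
    have hle : ∀ m, a (ω m).val ≤ (ω m).val ∧ b (ω m).val ≤ (ω m).val := by
      intro m
      have h1 := hdv m
      have hpos : 0 < (ω m).val := (hX m).1
      constructor
      · exact Nat.le_of_dvd hpos (((dvd_pow_self _ two_ne_zero).mul_right _).trans h1)
      · exact Nat.le_of_dvd hpos (((dvd_pow_self _ three_ne_zero).mul_left _).trans h1)
    rw [Set.mem_iUnion₂]
    refine ⟨fun i => (a (ω (n + i)).val, b (ω (n + i)).val), ?_, ?_⟩
    · rw [hT, Finset.mem_filter, Fintype.mem_piFinset]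
      constructor
      · intro i
        rw [hbx, Finset.mem_product, Finset.mem_Icc, Finset.mem_Icc]
        have h1 := hle (n + i)
        have h2 := hX (n + i)
        have h3 := ha (ω (n + i)).val
        have h4 := hb (ω (n + i)).val
        have h5 := i.isLt
        simp only
        omega
      · refine hω.trans (le_of_eq ?_)
        rw [hdd]
        unfold PkX
        rw [Finset.prod_Ico_eq_prod_range, Nat.add_sub_cancel_left, Finset.prod_range]
        push_cast
        refine Finset.prod_congr rfl fun i _ => ?_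
        rw [hab]
        push_cast
        rfl
    · intro i
      rw [hdd]
      exact hdv (n + i)
  refine (measure_mono hsub).trans ((measure_biUnion_finset_le _ _).trans ?_)
  have hpos : ∀ c ∈ T, ∀ i, 1 ≤ dd c i := by
    intro c hc i
    rw [hT, Finset.mem_filter, Fintype.mem_piFinset] at hc
    have h1 := hc.1 i
    rw [hbx, Finset.mem_product, Finset.mem_Icc, Finset.mem_Icc] at h1
    rw [hdd]
    exact Nat.mul_pos (Nat.pow_pos h1.1.1) (Nat.pow_pos h1.2.1)
  have h1 : ∑ c ∈ T, P {ω | ∀ i : Fin k, dd c i ∣ (ω (n + i)).val} ≤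
      ∑ c ∈ T, ENNReal.ofReal (∏ i, 1 / (dd c i : ℝ)) :=
    Finset.sum_le_sum fun c hc => P_dvd k n hn (dd c) (hpos c hc)
  refine h1.trans ?_
  rw [← ENNReal.ofReal_sum_of_nonneg (fun c _ => Finset.prod_nonneg fun i _ => by positivity)]
  apply ENNReal.ofReal_le_ofReal
  have hsy : 0 < Real.sqrt y := Real.sqrt_pos.2 hy
  have h2 : ∀ c ∈ T, ∏ i, 1 / (dd c i : ℝ) ≤ (∏ i, 1 / Real.sqrt (dd c i)) / Real.sqrt y := by
    intro c hc
    have hd0 : ∀ i, (0 : ℝ) < dd c i := fun i => by exact_mod_cast hpos c hc i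
    have h3 : y ≤ ∏ i, (dd c i : ℝ) := by
      rw [hT, Finset.mem_filter] at hc
      exact hc.2
    have h4 : Real.sqrt y ≤ ∏ i, Real.sqrt (dd c i) := by
      rw [Real.sqrt_le_left (Finset.prod_nonneg fun i _ => Real.sqrt_nonneg _), ← Finset.prod_pow]
      rw [Finset.prod_congr rfl fun i _ => Real.sq_sqrt (hd0 i).le]
      exact h3
    have h5 : ∏ i, 1 / (dd c i : ℝ) = (∏ i, 1 / Real.sqrt (dd c i)) / ∏ i, Real.sqrt (dd c i) := by
      rw [← Finset.prod_div_distrib]
      refine Finset.prod_congr rfl fun i _ => ?_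
      rw [div_div, Real.mul_self_sqrt (hd0 i).le]
    rw [h5]
    exact div_le_div_of_nonneg_left (Finset.prod_nonneg fun i _ => by positivity) hsy h4
  refine (Finset.sum_le_sum h2).trans ?_
  rw [← Finset.sum_div]
  refine div_le_div_of_nonneg_right ?_ hsy.le
  calc ∑ c ∈ T, ∏ i, 1 / Real.sqrt (dd c i)
      ≤ ∑ c ∈ Fintype.piFinset fun _ : Fin k => bx, ∏ i, 1 / Real.sqrt (dd c i) := by
        refine Finset.sum_le_sum_of_subset_of_nonneg ?_ fun c _ _ =>
          Finset.prod_nonneg fun i _ => by positivity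
        rw [hT]
        exact Finset.filter_subset _ _
    _ = ∏ _i : Fin k, ∑ x ∈ bx, 1 / Real.sqrt ((x.1 ^ 2 * x.2 ^ 3 : ℕ) : ℝ) := by
        rw [Finset.prod_univ_sum, hdd]
    _ = (∑ x ∈ bx, 1 / Real.sqrt ((x.1 ^ 2 * x.2 ^ 3 : ℕ) : ℝ)) ^ k := by
        rw [Finset.prod_const, Finset.card_univ, Fintype.card_fin]
    _ ≤ _ := by
        refine pow_le_pow_left₀ (Finset.sum_nonneg fun x _ => by positivity) ?_ k
        rw [hbx]
        exact box_sum (n + k) (by omega)

end Pool.Agent.RM9
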