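import Pool.Agent.RM9.Prob

/-!
# RM9/UpB: the tail bound with `k - 1` logarithms
-/

set_option autoImplicit false

namespace Pool.Agent.RM9

open N8b628fb0 MeasureTheory ProbabilityTheory Filter

theorem sqtail (M : ℕ) (r : ℝ) (hr : 0 < r) :
    ∑ a ∈ (Finset.Icc 1 M).filter (fun a : ℕ => r ≤ a), 1 / (a : ℝ) ^ 2 ≤ 2 / r := by
  have h0 : 1 ≤ ⌈r⌉₊ := Nat.ceil_pos.2 hr
  have hsub : (Finset.Icc 1 M).filter (fun a : ℕ => r ≤ a) ⊆ Finset.Ioo (⌈r⌉₊ - 1) (M + 1) := by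
    intro a ha
    rw [Finset.mem_filter, Finset.mem_Icc] at ha
    have h1 : ⌈r⌉₊ ≤ a := Nat.ceil_le.2 ha.2
    rw [Finset.mem_Ioo]
    omega
  calc ∑ a ∈ (Finset.Icc 1 M).filter (fun a : ℕ => r ≤ a), 1 / (a : ℝ) ^ 2
      ≤ ∑ a ∈ Finset.Ioo (⌈r⌉₊ - 1) (M + 1), 1 / (a : ℝ) ^ 2 :=
        Finset.sum_le_sum_of_subset_of_nonneg hsub fun a _ _ => by positivity
    _ = ∑ a ∈ Finset.Ioo (⌈r⌉₊ - 1) (M + 1), ((a : ℝ) ^ 2)⁻¹ :=
        Finset.sum_congr rfl fun a _ => one_div _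
    _ ≤ 2 / (((⌈r⌉₊ - 1 : ℕ) : ℝ) + 1) := sum_Ioo_inv_sq_le _ _
    _ = 2 / (⌈r⌉₊ : ℝ) := by
        congr 1
        exact_mod_cast Nat.sub_add_cancel h0
    _ ≤ 2 / r := by
        exact div_le_div_of_nonneg_left (by norm_num) hr (Nat.le_ceil r)

/-- `a² b³` -/
def D (x : ℕ × ℕ) : ℕ := x.1 ^ 2 * x.2 ^ 3

/-- the box -/
def bx (M : ℕ) : Finset (ℕ × ℕ) := Finset.Icc 1 M ×ˢ Finset.Icc 1 M

theorem D_pos {M : ℕ} {x : ℕ × ℕ} (hx : x ∈ bx M) : 0 < D x := by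
  unfold bx at hx
  rw [Finset.mem_product, Finset.mem_Icc, Finset.mem_Icc] at hx
  exact Nat.mul_pos (Nat.pow_pos hx.1.1) (Nat.pow_pos hx.2.1)

theorem step1 (M : ℕ) (z : ℝ) (hz : 0 < z) :
    ∑ x ∈ (bx M).filter (fun x => z ≤ (D x : ℝ)), 1 / (D x : ℝ) ≤ 2 * Z / Real.sqrt z := by
  have hsz : 0 < Real.sqrt z := Real.sqrt_pos.2 hz
  have h1 : ∑ x ∈ (bx M).filter (fun x => z ≤ (D x : ℝ)), 1 / (D x : ℝ) =
      ∑ b ∈ Finset.Icc 1 M, ∑ a ∈ (Finset.Icc 1 M).filter (fun a => z ≤ (D (a, b) : ℝ)),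
        1 / (D (a, b) : ℝ) := by
    rw [Finset.sum_filter, bx, Finset.sum_product_right]
    exact Finset.sum_congr rfl fun b _ => (Finset.sum_filter _ _).symm
  rw [h1]
  have h2 : ∀ b ∈ Finset.Icc 1 M, ∑ a ∈ (Finset.Icc 1 M).filter (fun a => z ≤ (D (a, b) : ℝ)),
      1 / (D (a, b) : ℝ) ≤ 2 / Real.sqrt z * (1 / (b : ℝ) ^ (3 / 2 : ℝ)) := by
    intro b hb
    have hb0 : (0 : ℝ) < b := by exact_mod_cast (Finset.mem_Icc.1 hb).1
    have hs3 : Real.sqrt ((b : ℝ) ^ 3) = (b : ℝ) ^ (3 / 2 : ℝ) := by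
      rw [Real.sqrt_eq_rpow, ← Real.rpow_natCast, ← Real.rpow_mul hb0.le]
      norm_num
    have hs0 : 0 < Real.sqrt ((b : ℝ) ^ 3) := Real.sqrt_pos.2 (by positivity)
    have hs2 : Real.sqrt ((b : ℝ) ^ 3) ^ 2 = (b : ℝ) ^ 3 := Real.sq_sqrt (by positivity)
    have hr : 0 < Real.sqrt z / Real.sqrt ((b : ℝ) ^ 3) := by positivity
    have hsub : (Finset.Icc 1 M).filter (fun a => z ≤ (D (a, b) : ℝ)) ⊆
        (Finset.Icc 1 M).filter (fun a : ℕ => Real.sqrt z / Real.sqrt ((b : ℝ) ^ 3) ≤ a) := by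
      intro a ha
      rw [Finset.mem_filter] at ha ⊢
      refine ⟨ha.1, ?_⟩
      have h3 := ha.2
      unfold D at h3
      push_cast at h3
      rw [div_le_iff₀ hs0, Real.sqrt_le_left (by positivity), mul_pow, hs2]
      exact h3
    calc ∑ a ∈ (Finset.Icc 1 M).filter (fun a => z ≤ (D (a, b) : ℝ)), 1 / (D (a, b) : ℝ)
        ≤ ∑ a ∈ (Finset.Icc 1 M).filter
            (fun a : ℕ => Real.sqrt z / Real.sqrt ((b : ℝ) ^ 3) ≤ a), 1 / (D (a, b) : ℝ) :=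
          Finset.sum_le_sum_of_subset_of_nonneg hsub fun a _ _ => by positivity
      _ = (∑ a ∈ (Finset.Icc 1 M).filter
            (fun a : ℕ => Real.sqrt z / Real.sqrt ((b : ℝ) ^ 3) ≤ a), 1 / (a : ℝ) ^ 2) *
              (1 / (b : ℝ) ^ 3) := by
          rw [Finset.sum_mul]
          refine Finset.sum_congr rfl fun a _ => ?_
          unfold D
          push_cast
          rw [one_div_mul_one_div]
      _ ≤ 2 / (Real.sqrt z / Real.sqrt ((b : ℝ) ^ 3)) * (1 / (b : ℝ) ^ 3) :=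
          mul_le_mul_of_nonneg_right (sqtail M _ hr) (by positivity)
      _ = 2 / Real.sqrt z * (1 / (b : ℝ) ^ (3 / 2 : ℝ)) := by
          have h9 : (1 : ℝ) / (b : ℝ) ^ 3 = 1 / Real.sqrt ((b : ℝ) ^ 3) ^ 2 := by rw [hs2]
          rw [← hs3, h9]
          generalize Real.sqrt ((b : ℝ) ^ 3) = s at hs0
          field_simp
  refine (Finset.sum_le_sum h2).trans ?_
  rw [← Finset.mul_sum]
  have h5 : ∑ b ∈ Finset.Icc 1 M, 1 / (b : ℝ) ^ (3 / 2 : ℝ) ≤ Z :=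
    (Real.summable_one_div_nat_rpow.2 (by norm_num)).sum_le_tsum _ fun b _ => by positivity
  calc 2 / Real.sqrt z * ∑ b ∈ Finset.Icc 1 M, 1 / (b : ℝ) ^ (3 / 2 : ℝ)
      ≤ 2 / Real.sqrt z * Z := mul_le_mul_of_nonneg_left h5 (by positivity)
    _ = _ := by ring

theorem sum_bd (k M : ℕ) (hM : 1 ≤ M) (y : ℝ) (hy : 0 < y) :
    ∑ c ∈ (Fintype.piFinset fun _ : Fin (k + 1) => bx M).filter
      (fun c => y ≤ ∏ i, (D (c i) : ℝ)), ∏ i, 1 / (D (c i) : ℝ) ≤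
      2 * Z / Real.sqrt y * (Z * (1 + Real.log M)) ^ k := by
  classical
  have hsy : 0 < Real.sqrt y := Real.sqrt_pos.2 hy
  have h1 : ∑ c ∈ (Fintype.piFinset fun _ : Fin (k + 1) => bx M).filter
      (fun c => y ≤ ∏ i, (D (c i) : ℝ)), ∏ i, 1 / (D (c i) : ℝ) =
      ∑ c' ∈ Fintype.piFinset fun _ : Fin k => bx M, ∑ x ∈ (bx M).filter
        (fun x => y ≤ D x * ∏ i, (D (c' i) : ℝ)), 1 / (D x : ℝ) * ∏ i, 1 / (D (c' i) : ℝ) := by
    have h2 : ∑ c' ∈ Fintype.piFinset fun _ : Fin k => bx M, ∑ x ∈ (bx M).filter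
        (fun x => y ≤ D x * ∏ i, (D (c' i) : ℝ)), 1 / (D x : ℝ) * ∏ i, 1 / (D (c' i) : ℝ) =
      ∑ p ∈ ((Fintype.piFinset fun _ : Fin k => bx M) ×ˢ bx M).filter
        (fun p => y ≤ D p.2 * ∏ i, (D (p.1 i) : ℝ)), 1 / (D p.2 : ℝ) * ∏ i, 1 / (D (p.1 i) : ℝ) := by
      rw [Finset.sum_filter, Finset.sum_product]
      exact Finset.sum_congr rfl fun c' _ => Finset.sum_filter _ _
    rw [h2]
    refine Finset.sum_nbij' (fun c => (Fin.tail c, c 0))
      (fun p => (Fin.cons p.2 p.1 : Fin (k + 1) → ℕ × ℕ)) ?_ ?_ ?_ ?_ ?_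
    · intro c hc
      rw [Finset.mem_filter, Fintype.mem_piFinset, Fin.prod_univ_succ] at hc
      rw [Finset.mem_filter, Finset.mem_product, Fintype.mem_piFinset]
      exact ⟨⟨fun i => hc.1 i.succ, hc.1 0⟩, hc.2⟩
    · intro p hp
      rw [Finset.mem_filter, Finset.mem_product, Fintype.mem_piFinset] at hp
      rw [Finset.mem_filter, Fintype.mem_piFinset, Fin.prod_univ_succ]
      refine ⟨fun i => ?_, ?_⟩
      · refine Fin.cases ?_ (fun i => ?_) i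
        · simpa using hp.1.2
        · simpa using hp.1.1 i
      · simpa using hp.2
    · intro c _
      exact Fin.cons_self_tail c
    · intro p _
      simp
    · intro c _
      rw [Fin.prod_univ_succ]
      rfl
  rw [h1]
  have h3 : ∀ c' ∈ Fintype.piFinset fun _ : Fin k => bx M, ∑ x ∈ (bx M).filter
        (fun x => y ≤ D x * ∏ i, (D (c' i) : ℝ)), 1 / (D x : ℝ) * ∏ i, 1 / (D (c' i) : ℝ) ≤
      2 * Z / Real.sqrt y * ∏ i, 1 / Real.sqrt (D (c' i)) := by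
    intro c' hc'
    rw [Fintype.mem_piFinset] at hc'
    have hd : ∀ i, (0 : ℝ) < D (c' i) := fun i => by exact_mod_cast D_pos (hc' i)
    obtain ⟨Q, hQ⟩ : ∃ Q : ℝ, Q = ∏ i, (D (c' i) : ℝ) := ⟨_, rfl⟩
    have hQ0 : 0 < Q := by
      rw [hQ]
      exact Finset.prod_pos fun i _ => hd i
    rw [← hQ, ← Finset.sum_mul]
    have h4 : (bx M).filter (fun x => y ≤ D x * Q) = (bx M).filter (fun x => y / Q ≤ (D x : ℝ)) := by
      refine Finset.filter_congr fun x _ => ?_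
      rw [div_le_iff₀ hQ0]
    have h5 : ∏ i, 1 / (D (c' i) : ℝ) = 1 / Q := by
      rw [hQ, Finset.prod_div_distrib, Finset.prod_const_one]
    have h6 : ∏ i, 1 / Real.sqrt (D (c' i)) = 1 / Real.sqrt Q := by
      rw [hQ, Finset.prod_div_distrib, Finset.prod_const_one, Real.sqrt_prod _ fun i _ => (hd i).le]
    rw [h4, h5, h6]
    have h7 := step1 M (y / Q) (by positivity)
    have hsQ : 0 < Real.sqrt Q := Real.sqrt_pos.2 hQ0
    have hsQ2 : Real.sqrt Q ^ 2 = Q := Real.sq_sqrt hQ0.le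
    calc (∑ x ∈ (bx M).filter (fun x => y / Q ≤ (D x : ℝ)), 1 / (D x : ℝ)) * (1 / Q)
        ≤ 2 * Z / Real.sqrt (y / Q) * (1 / Q) := mul_le_mul_of_nonneg_right h7 (by positivity)
      _ = 2 * Z / Real.sqrt y * (1 / Real.sqrt Q) := by
          rw [Real.sqrt_div hy.le]
          nth_rewrite 2 [← hsQ2]
          field_simp
  refine (Finset.sum_le_sum h3).trans ?_
  rw [← Finset.mul_sum]
  refine mul_le_mul_of_nonneg_left ?_ (by have := Z_nonneg; positivity)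
  calc ∑ c' ∈ Fintype.piFinset fun _ : Fin k => bx M, ∏ i, 1 / Real.sqrt (D (c' i))
      = ∏ _i : Fin k, ∑ x ∈ bx M, 1 / Real.sqrt (D x) := by
        rw [Finset.prod_univ_sum]
    _ = (∑ x ∈ bx M, 1 / Real.sqrt (D x)) ^ k := by
        rw [Finset.prod_const, Finset.card_univ, Fintype.card_fin]
    _ ≤ _ := by
        refine pow_le_pow_left₀ (Finset.sum_nonneg fun x _ => by positivity) ?_ k
        exact box_sum M hM

/-- union bound -/
theorem tail0 (k n : ℕ) (hn : 1 ≤ n) (y : ℝ) :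
    P {ω | y ≤ (PkX k n ω : ℝ)} ≤
      ENNReal.ofReal (∑ c ∈ (Fintype.piFinset fun _ : Fin k => bx (n + k)).filter
      (fun c => y ≤ ∏ i, (D (c i) : ℝ)), ∏ i, 1 / (D (c i) : ℝ)) := by
  classical
  obtain ⟨T, hT⟩ : ∃ T, T = (Fintype.piFinset fun _ : Fin k => bx (n + k)).filter
    (fun c => y ≤ ∏ i, (D (c i) : ℝ)) := ⟨_, rfl⟩
  rw [← hT]
  have hsub : {ω : ∀ m, Om m | y ≤ (PkX k n ω : ℝ)} ⊆
      ⋃ c ∈ T, {ω | ∀ i : Fin k, D (c i) ∣ (ω (n + i)).val} := by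
    intro ω hω
    rw [Set.mem_ofPred_eq] at hω
    choose a b ha hb hab using fun m : ℕ => B_ab m
    have hX : ∀ m, 1 ≤ (ω m).val ∧ (ω m).val ≤ max m 1 := fun m => Finset.mem_Icc.1 (ω m).2
    have hdv : ∀ m, a (ω m).val ^ 2 * b (ω m).val ^ 3 ∣ (ω m).val := by
      intro m
      rw [← hab]
      exact B_dvd (by have := (hX m).1; omega)
    have hle : ∀ m, a (ω m).val ≤ (ω m).val ∧ b (ω m).val ≤ (ω m).val := by
      intro m
      have h1 := hdv m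
      have hpos : 0 < (ω m).val := (hX m).1
      constructor
      · exact Nat.le_of_dvd hpos (((dvd_pow_self _ two_ne_zero).mul_right _).trans h1)
      · exact Nat.le_of_dvd hpos (((dvd_pow_self _ three_ne_zero).mul_left _).trans h1)
    rw [Set.mem_iUnion₂]
    refine ⟨fun i => (a (ω (n + i)).val, b (ω (n + i)).val), ?_, ?_⟩
    · rw [hT, Finset.mem_filter, Fintype.mem_piFinset]
      constructor
      · intro i
        rw [bx, Finset.mem_product, Finset.mem_Icc, Finset.mem_Icc]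
        have h1 := hle (n + i)
        have h2 := hX (n + i)
        have h3 := ha (ω (n + i)).val
        have h4 := hb (ω (n + i)).val
        have h5 := i.isLt
        simp only
        omega
      · refine hω.trans (le_of_eq ?_)
        unfold PkX
        rw [Finset.prod_Ico_eq_prod_range, Nat.add_sub_cancel_left, Finset.prod_range]
        push_cast
        refine Finset.prod_congr rfl fun i _ => ?_
        rw [hab]
        rfl
    · intro i
      exact hdv (n + i)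
  refine (measure_mono hsub).trans ((measure_biUnion_finset_le _ _).trans ?_)
  have hpos : ∀ c ∈ T, ∀ i, 1 ≤ D (c i) := by
    intro c hc i
    rw [hT, Finset.mem_filter, Fintype.mem_piFinset] at hc
    exact D_pos (hc.1 i)
  have h1 : ∑ c ∈ T, P {ω | ∀ i : Fin k, D (c i) ∣ (ω (n + i)).val} ≤
      ∑ c ∈ T, ENNReal.ofReal (∏ i, 1 / (D (c i) : ℝ)) :=
    Finset.sum_le_sum fun c hc => P_dvd k n hn (fun i => D (c i)) (hpos c hc)
  refine h1.trans ?_
  rw [← ENNReal.ofReal_sum_of_nonneg (fun c _ => Finset.prod_nonneg fun i _ => by positivity)]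

theorem tail2 (k n : ℕ) (hn : 1 ≤ n) (y : ℝ) (hy : 0 < y) :
    P {ω | y ≤ (PkX (k + 1) n ω : ℝ)} ≤
      ENNReal.ofReal (2 * Z / Real.sqrt y * (Z * (1 + Real.log (n + (k + 1) : ℕ))) ^ k) := by
  refine (tail0 (k + 1) n hn y).trans (ENNReal.ofReal_le_ofReal ?_)
  exact sum_bd k (n + (k + 1)) (by omega) y hy

end Pool.Agent.RM9
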